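import Mathlib

/-!
# Decomposition of a graph in expanders

`cr G S T` is the number of pairs `(x, y)` with `x ∈ S`, `y ∈ T` and `x ~ y`.
-/

set_option autoImplicit false

namespace Pool.Agent.Q248.EX

open Finset SimpleGraph

variable {V : Type*} [Fintype V] [DecidableEq V] (G : SimpleGraph V) [DecidableRel G.Adj]

/-- the number of pairs `(x, y) ∈ S × T` of adjacent vertices -/
def cr (S T : Finset V) : ℕ := ∑ x ∈ S, #{y ∈ T | G.Adj x y}

omit [Fintype V] [DecidableEq V] in
theorem cr_eq (S T : Finset V) : cr G S T = #{p ∈ S ×ˢ T | G.Adj p.1 p.2} := by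
  unfold cr
  rw [card_filter, sum_product]
  exact sum_congr rfl fun x _ => by rw [card_filter]

omit [Fintype V] [DecidableEq V] in
theorem cr_comm (S T : Finset V) : cr G S T = cr G T S := by
  rw [cr_eq, cr_eq]
  apply card_bij (fun p _ => (p.2, p.1))
  · intro p hp
    simp only [mem_filter, mem_product] at hp ⊢
    exact ⟨⟨hp.1.2, hp.1.1⟩, hp.2.symm⟩
  · intro p _ q _ h
    simp only [Prod.mk.injEq] at h
    exact Prod.ext h.2 h.1
  · intro p hp
    simp only [mem_filter, mem_product] at hp
    exact ⟨(p.2, p.1), by simp only [mem_filter, mem_product]; exact ⟨⟨hp.1.2, hp.1.1⟩, hp.2.symm⟩, rfl⟩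

omit [Fintype V] in
theorem cr_union_left {S T : Finset V} (h : Disjoint S T) (U : Finset V) :
    cr G (S ∪ T) U = cr G S U + cr G T U := by
  unfold cr; rw [sum_union h]

omit [Fintype V] in
theorem cr_union_right {S T : Finset V} (h : Disjoint S T) (U : Finset V) :
    cr G U (S ∪ T) = cr G U S + cr G U T := by
  rw [cr_comm, cr_union_left G h, cr_comm G S, cr_comm G T]

omit [Fintype V] in
theorem cr_self_union {S T : Finset V} (h : Disjoint S T) :
    cr G (S ∪ T) (S ∪ T) = cr G S S + cr G T T + 2 * cr G S T := by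
  rw [cr_union_left G h, cr_union_right G h, cr_union_right G h, cr_comm G T S]; ring

omit [Fintype V] [DecidableEq V] in
theorem cr_singleton (x : V) (T : Finset V) : cr G {x} T = #{y ∈ T | G.Adj x y} := by
  unfold cr; simp

omit [Fintype V] [DecidableEq V] in
theorem cr_singleton_self (x : V) : cr G {x} {x} = 0 := by
  rw [cr_singleton]; simp [filter_singleton]

/-- admissible sets -/
def Adm (W : Finset V) (τ : ℝ) (U : Finset V) : Prop :=
  U ⊆ W ∧ U.Nonempty ∧ τ * (#U : ℝ) ≤ cr G U U

/-- the value of a set -/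
noncomputable def val (τ ρ : ℝ) (U : Finset V) : ℝ := (cr G U U : ℝ) - 2 * τ * (#U : ℝ) + ρ

/-- **Decomposition in expanders.** Let every nonempty `U ⊆ W` of average degree at least `τ` have at least
`s` vertices. Then there are disjoint subsets of `W`, each with at least `s` vertices,
with `e(S, U ∖ S) ≥ (τ / 4) min (s, |S|, |U ∖ S|)`, such that the sum of the degrees inside of them is
at least that of `W` minus `2 τ |W|`. -/
theorem decomp (W : Finset V) (τ s : ℝ) (hτ : 0 < τ) (hs : 0 < s)
    (H : ∀ U ⊆ W, U.Nonempty → τ * (#U : ℝ) ≤ cr G U U → s ≤ #U) :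
    ∃ P : Finset (Finset V), (∀ U ∈ P, U ⊆ W ∧ s ≤ #U ∧ τ * (#U : ℝ) ≤ cr G U U ∧
        (∀ x ∈ U, τ / 4 ≤ #{y ∈ U | G.Adj x y}) ∧
        ∀ S T : Finset V, S.Nonempty → T.Nonempty → Disjoint S T → S ∪ T = U →
          τ / 4 * min s (min (#S : ℝ) (#T : ℝ)) ≤ cr G S T) ∧
      (∀ U ∈ P, ∀ U' ∈ P, U ≠ U' → Disjoint U U') ∧
      (cr G W W : ℝ) - 2 * τ * #W ≤ ∑ U ∈ P, (cr G U U : ℝ) := by
  classical
  set ρ : ℝ := τ * s / 2 with hρ
  set 𝓕 : Finset (Finset (Finset V)) := (W.powerset.powerset).filter fun P =>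
    (∀ U ∈ P, Adm G W τ U) ∧ ∀ U ∈ P, ∀ U' ∈ P, U ≠ U' → Disjoint U U' with h𝓕
  have hmem : ∀ P : Finset (Finset V), P ∈ 𝓕 ↔ ((∀ U ∈ P, Adm G W τ U) ∧
      ∀ U ∈ P, ∀ U' ∈ P, U ≠ U' → Disjoint U U') := by
    intro P
    rw [h𝓕, mem_filter]
    refine ⟨fun h => h.2, fun h => ⟨?_, h⟩⟩
    rw [mem_powerset]
    intro U hU
    rw [mem_powerset]
    exact (h.1 U hU).1
  have hne : 𝓕.Nonempty := ⟨∅, by rw [hmem]; simp⟩
  obtain ⟨P, hP, hmax⟩ := exists_max_image 𝓕 (fun P => ∑ U ∈ P, val G τ ρ U) hne
  have hP' := (hmem P).1 hP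
  obtain ⟨hadm, hdis⟩ := hP'
  -- the values are nonnegative
  have hval : ∀ U ∈ P, 0 ≤ val G τ ρ U := by
    intro U hU
    have h1 : P.erase U ∈ 𝓕 := by
      rw [hmem]
      exact ⟨fun A hA => hadm A (mem_of_mem_erase hA), fun A hA B hB =>
        hdis A (mem_of_mem_erase hA) B (mem_of_mem_erase hB)⟩
    have h2 := hmax _ h1
    have h3 := add_sum_erase P (fun U => val G τ ρ U) hU
    beta_reduce at h2 h3
    linarith
  -- replacing a set by disjoint admissible subsets
  have hrep : ∀ U ∈ P, ∀ Q : Finset (Finset V), (∀ A ∈ Q, Adm G W τ A ∧ A ⊆ U) →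
      (∀ A ∈ Q, ∀ B ∈ Q, A ≠ B → Disjoint A B) → ∑ A ∈ Q, val G τ ρ A ≤ val G τ ρ U := by
    intro U hU Q hQ hQd
    have hd : Disjoint (P.erase U) Q := by
      rw [Finset.disjoint_left]
      intro A hA hAQ
      have h1 : Disjoint A U := hdis A (mem_of_mem_erase hA) U hU (ne_of_mem_erase hA)
      have h2 := (hQ A hAQ).2
      have h3 : A.Nonempty := (hQ A hAQ).1.2.1
      obtain ⟨x, hx⟩ := h3
      exact (Finset.disjoint_left.1 h1) hx (h2 hx)
    have h1 : (P.erase U) ∪ Q ∈ 𝓕 := by
      rw [hmem]
      refine ⟨?_, ?_⟩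
      · intro A hA
        rcases mem_union.1 hA with h | h
        · exact hadm A (mem_of_mem_erase h)
        · exact (hQ A h).1
      · intro A hA B hB hAB
        rcases mem_union.1 hA with h | h <;> rcases mem_union.1 hB with h' | h'
        · exact hdis A (mem_of_mem_erase h) B (mem_of_mem_erase h') hAB
        · exact Disjoint.mono_right (hQ B h').2 (hdis A (mem_of_mem_erase h) U hU (ne_of_mem_erase h))
        · exact Disjoint.mono_left (hQ A h).2
            (hdis U hU B (mem_of_mem_erase h') (ne_of_mem_erase h').symm)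
        · exact hQd A h B h' hAB
    have h2 := hmax _ h1
    beta_reduce at h2
    rw [sum_union hd] at h2
    have h3 := add_sum_erase P (fun U => val G τ ρ U) hU
    beta_reduce at h3
    linarith
  -- not admissible subsets
  have hnot : ∀ U ∈ P, ∀ S T : Finset V, S.Nonempty → T.Nonempty → Disjoint S T → S ∪ T = U →
      ¬ τ * (#S : ℝ) ≤ cr G S S → τ / 4 * (#S : ℝ) ≤ cr G S T := by
    intro U hU S T hS hT hST hU' hSn
    by_contra hcon
    push Not at hcon hSn
    have hUU : (cr G U U : ℝ) = cr G S S + cr G T T + 2 * cr G S T := by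
      rw [← hU', cr_self_union G hST]; push_cast; ring
    have hcard : (#U : ℝ) = #S + #T := by rw [← hU', card_union_of_disjoint hST]; push_cast; ring
    have hSpos : (0 : ℝ) < #S := by exact_mod_cast hS.card_pos
    have hUs : s ≤ #U := H U (hadm U hU).1 (hadm U hU).2.1 (hadm U hU).2.2
    have h0 := hval U hU
    unfold val at h0
    have hTS : T ⊆ U := by rw [← hU']; exact subset_union_right
    have hvT : val G τ ρ U < val G τ ρ T := by
      unfold val
      rw [hUU, hcard]
      have : τ * (#S : ℝ) > 0 := mul_pos hτ hSpos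
      nlinarith
    have hTadm : Adm G W τ T := by
      refine ⟨hTS.trans (hadm U hU).1, hT, ?_⟩
      have : τ * s ≤ τ * (#S + #T) := by
        rw [← hcard]; exact mul_le_mul_of_nonneg_left hUs hτ.le
      have h5 : τ * (#S : ℝ) > 0 := mul_pos hτ hSpos
      rw [hUU, hcard] at h0
      nlinarith
    have := hrep U hU {T} (by
      intro A hA
      rw [mem_singleton] at hA
      subst hA
      exact ⟨hTadm, hTS⟩) (by
      intro A hA B hB hAB
      rw [mem_singleton] at hA hB
      exact absurd (hA.trans hB.symm) hAB)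
    rw [sum_singleton] at this
    linarith
  have hexp : ∀ U ∈ P, ∀ S T : Finset V, S.Nonempty → T.Nonempty → Disjoint S T → S ∪ T = U →
      τ / 4 * min s (min (#S : ℝ) (#T : ℝ)) ≤ cr G S T := by
    intro U hU S T hS hT hST hU'
    have hτ4 : (0 : ℝ) ≤ τ / 4 := by positivity
    by_cases h1 : τ * (#S : ℝ) ≤ cr G S S
    · by_cases h2 : τ * (#T : ℝ) ≤ cr G T T
      · have hSU : S ⊆ U := by rw [← hU']; exact subset_union_left
        have hTU : T ⊆ U := by rw [← hU']; exact subset_union_right
        have hne : S ≠ T := by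
          intro h
          subst h
          obtain ⟨x, hx⟩ := hS
          exact Finset.disjoint_left.1 hST hx hx
        have h3 := hrep U hU {S, T} (by
          intro A hA
          rw [mem_insert, mem_singleton] at hA
          rcases hA with rfl | rfl
          · exact ⟨⟨hSU.trans (hadm U hU).1, hS, h1⟩, hSU⟩
          · exact ⟨⟨hTU.trans (hadm U hU).1, hT, h2⟩, hTU⟩) (by
          intro A hA B hB hAB
          rw [mem_insert, mem_singleton] at hA hB
          rcases hA with rfl | rfl <;> rcases hB with rfl | rfl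
          · exact absurd rfl hAB
          · exact hST
          · exact hST.symm
          · exact absurd rfl hAB)
        rw [sum_pair hne] at h3
        unfold val at h3
        have hUU : (cr G U U : ℝ) = cr G S S + cr G T T + 2 * cr G S T := by
          rw [← hU', cr_self_union G hST]; push_cast; ring
        have hcard : (#U : ℝ) = #S + #T := by
          rw [← hU', card_union_of_disjoint hST]; push_cast; ring
        rw [hUU, hcard] at h3
        have h4 : τ / 4 * min s (min (#S : ℝ) (#T : ℝ)) ≤ τ / 4 * s :=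
          mul_le_mul_of_nonneg_left (min_le_left _ _) hτ4
        have : τ / 4 * s = ρ / 2 := by rw [hρ]; ring
        linarith
      · have h3 := hnot U hU T S hT hS hST.symm (by rw [union_comm]; exact hU') h2
        rw [cr_comm] at h3
        refine le_trans (mul_le_mul_of_nonneg_left ?_ hτ4) h3
        exact (min_le_right _ _).trans (min_le_right _ _)
    · have h3 := hnot U hU S T hS hT hST hU' h1
      refine le_trans (mul_le_mul_of_nonneg_left ?_ hτ4) h3
      exact (min_le_right _ _).trans (min_le_left _ _)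
  refine ⟨P, ?_, hdis, ?_⟩
  · intro U hU
    refine ⟨(hadm U hU).1, H U (hadm U hU).1 (hadm U hU).2.1 (hadm U hU).2.2, (hadm U hU).2.2, ?_,
      hexp U hU⟩
    intro x hx
    have hTne : (U.erase x).Nonempty := by
      by_contra hcon
      rw [not_nonempty_iff_eq_empty] at hcon
      have hUx : U = {x} := by
        ext y
        rw [mem_singleton]
        refine ⟨fun hy => ?_, fun hy => hy ▸ hx⟩
        by_contra hyx
        have : y ∈ U.erase x := mem_erase.2 ⟨hyx, hy⟩
        rw [hcon] at this
        simp at this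
      have h1 := (hadm U hU).2.2
      rw [hUx, cr_singleton_self] at h1
      simp at h1
      linarith
    have hdisj : Disjoint ({x} : Finset V) (U.erase x) := by
      rw [disjoint_singleton_left]; exact notMem_erase x U
    have hun : ({x} : Finset V) ∪ U.erase x = U := by
      rw [← insert_eq, insert_erase hx]
    have h1 := hnot U hU {x} (U.erase x) (singleton_nonempty x) hTne hdisj hun (by
      rw [cr_singleton_self]; simp [hτ])
    rw [cr_singleton] at h1
    have h2 : #{y ∈ U.erase x | G.Adj x y} ≤ #{y ∈ U | G.Adj x y} :=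
      card_le_card (filter_subset_filter _ (erase_subset _ _))
    have h3 : (#{y ∈ U.erase x | G.Adj x y} : ℝ) ≤ #{y ∈ U | G.Adj x y} := by exact_mod_cast h2
    simp at h1
    linarith
  · -- the lost mass
    have hsum : ∑ U ∈ P, (#U : ℝ) ≤ #W := by
      have h1 : ∑ U ∈ P, #U = #(P.biUnion id) := by
        rw [card_biUnion]
        · rfl
        · intro A hA B hB hAB
          exact hdis A hA B hB hAB
      have h2 : #(P.biUnion id) ≤ #W := by
        apply card_le_card
        intro x hx
        rw [mem_biUnion] at hx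
        obtain ⟨U, hU, hxU⟩ := hx
        exact (hadm U hU).1 hxU
      rw [← h1] at h2
      exact_mod_cast h2
    have hPs : ∑ U ∈ P, ρ ≤ ∑ U ∈ P, τ / 2 * (#U : ℝ) := by
      apply sum_le_sum
      intro U hU
      have := H U (hadm U hU).1 (hadm U hU).2.1 (hadm U hU).2.2
      rw [hρ]
      nlinarith
    by_cases hW : W.Nonempty ∧ τ * (#W : ℝ) ≤ cr G W W
    · have h1 : ({W} : Finset (Finset V)) ∈ 𝓕 := by
        rw [hmem]
        refine ⟨?_, ?_⟩
        · intro A hA
          rw [mem_singleton] at hA
          subst hA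
          exact ⟨subset_rfl, hW.1, hW.2⟩
        · intro A hA B hB hAB
          rw [mem_singleton] at hA hB
          exact absurd (hA.trans hB.symm) hAB
      have h2 := hmax _ h1
      simp only [sum_singleton] at h2
      unfold val at h2
      have h3 : ∑ U ∈ P, ((cr G U U : ℝ) - 2 * τ * (#U : ℝ) + ρ) =
          ∑ U ∈ P, (cr G U U : ℝ) - 2 * τ * ∑ U ∈ P, (#U : ℝ) + ∑ U ∈ P, ρ := by
        rw [sum_add_distrib, sum_sub_distrib, mul_sum]
      rw [h3] at h2
      rw [← mul_sum] at hPs
      have h4 : 0 ≤ ρ := by rw [hρ]; positivity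
      have h5 : (0 : ℝ) ≤ ∑ U ∈ P, (#U : ℝ) := sum_nonneg fun U _ => by positivity
      nlinarith
    · have h0 : (0 : ℝ) ≤ ∑ U ∈ P, (cr G U U : ℝ) := sum_nonneg fun U _ => by positivity
      by_cases hWe : W.Nonempty
      · have h1 : ¬ τ * (#W : ℝ) ≤ cr G W W := fun h => hW ⟨hWe, h⟩
        push Not at h1
        have h2 : (0 : ℝ) ≤ #W := by positivity
        nlinarith
      · rw [not_nonempty_iff_eq_empty] at hWe
        have : cr G W W = 0 := by rw [hWe]; rfl
        rw [this, hWe]
        simpa using h0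

end Pool.Agent.Q248.EX
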