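import Pool.Agent.Q248.EX.Ext
import Pool.Agent.Q268.KC.UpperFin
import Pool.Agent.Q266.KM.Count

/-!
# The hypotheses for graphs without `K_{s,t}`
-/

set_option autoImplicit false

namespace Pool.Agent.Q248.EX

open Finset SimpleGraph

theorem bip_ub (s t : ℕ) (hs : 2 ≤ s) : ∃ C₀ : ℝ, ∀ (V : Type) [Finite V] (G : SimpleGraph V),
    (completeBipartiteGraph (Fin s) (Fin t)).Free G →
    (G.edgeSet.ncard : ℝ) ≤ C₀ * (Nat.card V : ℝ) ^ (1 + (1 - 1 / (s : ℝ))) := by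
  have hs0 : (0 : ℝ) < s := by exact_mod_cast (by omega : 0 < s)
  have hexp : 0 < 1 - 1 / (s : ℝ) := by
    have : (2 : ℝ) ≤ s := by exact_mod_cast hs
    have h1 : 1 / (s : ℝ) ≤ 1 / 2 := one_div_le_one_div_of_le (by norm_num) this
    linarith
  refine ⟨(t : ℝ) + 1 + s, ?_⟩
  intro V _ G hG
  obtain ⟨N, hN⟩ : ∃ N, N = Nat.card V := ⟨_, rfl⟩
  obtain ⟨P, hP⟩ : ∃ P : ℝ, P = (N : ℝ) ^ (1 - 1 / (s : ℝ)) := ⟨_, rfl⟩
  have hP0 : 0 ≤ P := by rw [hP]; positivity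
  obtain ⟨D, hD⟩ : ∃ D : ℕ, D = ⌊((t : ℝ) + 1) * P⌋₊ + s := ⟨_, rfl⟩
  have hD1 : ((t : ℝ) + 1) * P < ((D + 1 - s : ℕ) : ℝ) := by
    have : D + 1 - s = ⌊((t : ℝ) + 1) * P⌋₊ + 1 := by omega
    rw [this]; push_cast; exact Nat.lt_floor_add_one _
  have hD2 : (D : ℝ) ≤ ((t : ℝ) + 1) * P + s := by
    rw [hD]; push_cast
    have := Nat.floor_le (show 0 ≤ ((t : ℝ) + 1) * P by positivity)
    linarith
  obtain ⟨K, h1, h2, h3, _⟩ := Pool.Agent.Q268.KC.upper_nat s t V G hG D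
  have hK : IsEmpty K := by
    refine ⟨fun x => ?_⟩
    have hN1 : 1 ≤ N := by
      rw [hN]
      have : Nonempty V := ⟨x⟩
      exact Nat.card_pos
    have hN0 : (0 : ℝ) < N := by exact_mod_cast hN1
    have h5 := h3 {x.1} (by rw [card_singleton]; omega)
    rw [card_singleton, ← hN] at h5
    have h6 := h2 x x.2
    have h7 : {w : V | w ∈ K ∧ ∀ y ∈ ({x.1} : Finset V), G.Adj y w}.ncard =
        {w : V | w ∈ K ∧ G.Adj x w}.ncard := by
      congr 1; ext w; simp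
    rw [h7] at h5
    have h8 : (D + 1 - s) ^ s ≤ t * N ^ (s - 1) := by
      refine le_trans ?_ h5
      have hs' : s = s - 1 + 1 := by omega
      calc (D + 1 - s) ^ s = (D + 1 - s) * (D + 1 - s) ^ (s - 1) := by
            conv_lhs => rw [hs']
            rw [pow_succ]
            rw [← hs', mul_comm]
        _ ≤ _ := Nat.mul_le_mul_right _ (by omega)
    have h9 : (((D + 1 - s : ℕ) : ℝ)) ^ s ≤ t * (N : ℝ) ^ (s - 1) := by exact_mod_cast h8
    have h10 : P ^ s = (N : ℝ) ^ (s - 1) := by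
      rw [hP, ← Real.rpow_natCast ((N : ℝ) ^ (1 - 1 / (s : ℝ))), ← Real.rpow_mul hN0.le,
        ← Real.rpow_natCast]
      congr 1
      rw [Nat.cast_sub (by omega)]
      push_cast
      field_simp
    have h11 : (((t : ℝ) + 1) * P) ^ s < (((D + 1 - s : ℕ) : ℝ)) ^ s :=
      pow_lt_pow_left₀ hD1 (by positivity) (by omega)
    rw [mul_pow, h10] at h11
    have h12 : (t : ℝ) + 1 ≤ ((t : ℝ) + 1) ^ s :=
      le_self_pow₀ (by have : (0 : ℝ) ≤ t := Nat.cast_nonneg t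
                       linarith) (by omega)
    have h13 : ((t : ℝ) + 1) * (N : ℝ) ^ (s - 1) ≤ ((t : ℝ) + 1) ^ s * (N : ℝ) ^ (s - 1) :=
      mul_le_mul_of_nonneg_right h12 (by positivity)
    have h14 : (0 : ℝ) < (N : ℝ) ^ (s - 1) := by positivity
    nlinarith
  have h5 : (G.induce K).edgeSet.ncard = 0 := by
    rw [Set.eq_empty_of_isEmpty (G.induce K).edgeSet, Set.ncard_empty]
  rw [h5, zero_add, ← hN] at h1
  have h6 : (G.edgeSet.ncard : ℝ) ≤ D * N := by exact_mod_cast h1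
  rcases Nat.eq_zero_or_pos N with h0 | h0
  · rw [h0] at h6
    rw [← hN, h0]
    have : (0 : ℝ) ≤ ((t : ℝ) + 1 + s) * ((0 : ℕ) : ℝ) ^ (1 + (1 - 1 / (s : ℝ))) := by positivity
    simp only [Nat.cast_zero, mul_zero] at h6 this ⊢
    linarith
  · rw [← hN]
    have hN1 : (1 : ℝ) ≤ N := by exact_mod_cast h0
    have hN0 : (0 : ℝ) < N := by linarith
    rw [Real.rpow_add hN0, Real.rpow_one, ← hP]
    have h7 : (1 : ℝ) ≤ P := by rw [hP]; exact Real.one_le_rpow hN1 hexp.le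
    calc (G.edgeSet.ncard : ℝ) ≤ D * N := h6
      _ ≤ (((t : ℝ) + 1) * P + s) * N := mul_le_mul_of_nonneg_right hD2 hN0.le
      _ ≤ (((t : ℝ) + 1) * P + s * P) * N := by
        refine mul_le_mul_of_nonneg_right ?_ hN0.le
        nlinarith
      _ = _ := by ring

theorem bip_reg (s t : ℕ) (hs : 2 ≤ s) (ε η : ℝ) (hε : 0 < ε) (hη : 0 < η) :
    ∃ C : ℝ, 0 < C ∧ ∃ n₀ : ℕ, ∀ (V : Type) [Finite V]
      (G : SimpleGraph V), (completeBipartiteGraph (Fin s) (Fin t)).Free G → n₀ ≤ Nat.card V →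
      ε * (Nat.card V : ℝ) ^ (1 + (1 - 1 / (s : ℝ))) ≤ G.edgeSet.ncard →
      ∃ K : Set V, (1 - η) * G.edgeSet.ncard ≤ (G.induce K).edgeSet.ncard ∧
        ∀ x ∈ K, ({w : V | w ∈ K ∧ G.Adj x w}.ncard : ℝ) ≤
          C * (Nat.card V : ℝ) ^ (1 - 1 / (s : ℝ)) := by
  obtain ⟨C, hC, n₀, h⟩ := Pool.Agent.Q268.KC.upper_real s t hs ε η hε hη
  refine ⟨C, hC, n₀, fun V _ G hG hn he => ?_⟩
  obtain ⟨K, h1, _, h3, _⟩ := h V G hG hn (by
    rw [show (2 : ℝ) - 1 / (s : ℝ) = 1 + (1 - 1 / (s : ℝ)) by ring]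
    exact he)
  refine ⟨K, h1, fun x _ => ?_⟩
  have h5 := h3 {x} (by rw [card_singleton]; omega)
  rw [card_singleton] at h5
  have h7 : {w : V | w ∈ K ∧ ∀ y ∈ ({x} : Finset V), G.Adj y w}.ncard =
      {w : V | w ∈ K ∧ G.Adj x w}.ncard := by
    congr 1; ext w; simp
  rw [h7] at h5
  simpa using h5

/-- Kővári–Sós–Turán for two sets: `s` leaves in `A`, centres in `B`. -/
theorem asym_kst {V : Type} [Fintype V] [DecidableEq V] (G : SimpleGraph V) [DecidableRel G.Adj]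
    (s t : ℕ) (hG : (completeBipartiteGraph (Fin s) (Fin t)).Free G) (A B : Finset V) :
    ∑ b ∈ B, (#{a ∈ A | G.Adj b a}).choose s ≤ t * (#A).choose s := by
  classical
  have h1 : ∑ b ∈ B, (#{a ∈ A | G.Adj b a}).choose s =
      ∑ b ∈ B, #{S ∈ A.powersetCard s | ∀ a ∈ S, G.Adj b a} := by
    refine sum_congr rfl fun b _ => ?_
    rw [← card_powersetCard]
    congr 1
    ext S
    rw [mem_powersetCard, mem_filter, mem_powersetCard]
    constructor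
    · rintro ⟨h1, h2⟩
      refine ⟨⟨fun a ha => (mem_filter.1 (h1 ha)).1, h2⟩, fun a ha => (mem_filter.1 (h1 ha)).2⟩
    · rintro ⟨⟨h1, h2⟩, h3⟩
      exact ⟨fun a ha => mem_filter.2 ⟨h1 ha, h3 a ha⟩, h2⟩
  rw [h1]
  have h2 : ∑ b ∈ B, #{S ∈ A.powersetCard s | ∀ a ∈ S, G.Adj b a} =
      ∑ S ∈ A.powersetCard s, #{b ∈ B | ∀ a ∈ S, G.Adj b a} := by
    simp only [card_filter]
    exact sum_comm
  rw [h2, ← card_powersetCard, mul_comm, ← smul_eq_mul]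
  refine sum_le_card_nsmul _ _ _ fun S hS => ?_
  rw [mem_powersetCard] at hS
  have h3 := Pool.Agent.Q266.KM.common hG S {b ∈ B | ∀ a ∈ S, G.Adj b a} hS.2.ge (by
    intro a ha b hb
    exact ((mem_filter.1 hb).2 a ha).symm)
  exact h3.trans (Nat.sub_le _ _)

/-- `(e(A, B) - s |B|)^s ≤ t |B|^(s-1) |A|^s`. -/
theorem asym_kst' {V : Type} [Fintype V] [DecidableEq V] (G : SimpleGraph V) [DecidableRel G.Adj]
    (s t : ℕ) (hs : 1 ≤ s) (hG : (completeBipartiteGraph (Fin s) (Fin t)).Free G)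
    (A B : Finset V) (E : ℝ) (hE : 0 ≤ E) (h : E + s * #B ≤ cr G A B) :
    E ^ s ≤ t * (#B : ℝ) ^ (s - 1) * (#A : ℝ) ^ s := by
  classical
  have h1 := asym_kst G s t hG A B
  have h2 : ∑ b ∈ B, ((#{a ∈ A | G.Adj b a} + 1 - s) ^ s) ≤ t * (#A) ^ s := by
    calc ∑ b ∈ B, ((#{a ∈ A | G.Adj b a} + 1 - s) ^ s) ≤
        ∑ b ∈ B, s.factorial * (#{a ∈ A | G.Adj b a}).choose s :=
          sum_le_sum fun b _ => Pool.Agent.Q266.KM.pow_le _ _
      _ = s.factorial * ∑ b ∈ B, (#{a ∈ A | G.Adj b a}).choose s := by rw [mul_sum]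
      _ ≤ s.factorial * (t * (#A).choose s) := Nat.mul_le_mul_left _ h1
      _ = t * (s.factorial * (#A).choose s) := by ring
      _ ≤ _ := Nat.mul_le_mul_left _ (Pool.Agent.Q266.KM.le_pow _ _)
  have h3 : E ≤ ∑ b ∈ B, ((#{a ∈ A | G.Adj b a} + 1 - s : ℕ) : ℝ) := by
    have h4 : (cr G A B : ℝ) = ∑ b ∈ B, (#{a ∈ A | G.Adj b a} : ℝ) := by
      rw [cr_comm]; unfold cr; push_cast; rfl
    have h5 : ∑ b ∈ B, ((#{a ∈ A | G.Adj b a} : ℝ) - s) ≤
        ∑ b ∈ B, ((#{a ∈ A | G.Adj b a} + 1 - s : ℕ) : ℝ) := by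
      refine sum_le_sum fun b _ => ?_
      have h6 : #{a ∈ A | G.Adj b a} ≤ (#{a ∈ A | G.Adj b a} + 1 - s) + s := by omega
      have h7 : (#{a ∈ A | G.Adj b a} : ℝ) ≤ ((#{a ∈ A | G.Adj b a} + 1 - s : ℕ) : ℝ) + s := by
        exact_mod_cast h6
      linarith
    rw [sum_sub_distrib, sum_const, nsmul_eq_mul, ← h4] at h5
    linarith
  rcases B.eq_empty_or_nonempty with hB | hB
  · rw [hB] at h3
    simp only [sum_empty] at h3
    have : E = 0 := le_antisymm h3 hE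
    rw [this, zero_pow (by omega)]
    positivity
  have hB0 : (0 : ℝ) < #B := by exact_mod_cast hB.card_pos
  have h4 := pow_sum_div_card_le_sum_pow (s := B)
    (f := fun b => ((#{a ∈ A | G.Adj b a} + 1 - s : ℕ) : ℝ)) (fun b _ => Nat.cast_nonneg _) (s - 1)
  rw [show s - 1 + 1 = s by omega] at h4
  have h5 : (∑ b ∈ B, ((#{a ∈ A | G.Adj b a} + 1 - s : ℕ) : ℝ) ^ s) ≤ t * (#A : ℝ) ^ s := by
    exact_mod_cast h2
  have h6 : E ^ s ≤ (∑ b ∈ B, ((#{a ∈ A | G.Adj b a} + 1 - s : ℕ) : ℝ)) ^ s :=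
    pow_le_pow_left₀ hE h3 s
  rw [div_le_iff₀ (by positivity)] at h4
  calc E ^ s ≤ _ := h6
    _ ≤ _ := h4
    _ ≤ (t * (#A : ℝ) ^ s) * (#B : ℝ) ^ (s - 1) := mul_le_mul_of_nonneg_right h5 (by positivity)
    _ = _ := by ring

theorem bip_ball (s t : ℕ) (hs : 2 ≤ s) (C : ℝ) (hC : 0 < C) :
    ∃ (r : ℕ) (c : ℝ), 0 < c ∧ ∃ n₀ : ℕ, ∀ (W : Type) [Finite W]
      (H : SimpleGraph W), (completeBipartiteGraph (Fin s) (Fin t)).Free H → ∀ n : ℕ, n₀ ≤ n →
      (∀ x, (n : ℝ) ^ (1 - 1 / (s : ℝ)) ≤ C * (H.neighborSet x).ncard) →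
      ∀ x, c * n ≤ (ball H x r).ncard := by
  have hs0 : (0 : ℝ) < s := by exact_mod_cast (by omega : 0 < s)
  obtain ⟨M, hM⟩ : ∃ M : ℝ, M = max 1 ((2 * C) ^ s * (t + 1)) := ⟨_, rfl⟩
  have hM1 : 1 ≤ M := hM ▸ le_max_left _ _
  have hM2 : (2 * C) ^ s * (t + 1) ≤ M := hM ▸ le_max_right _ _
  have hM0 : 0 < M := by linarith
  refine ⟨2, min (1 / M) (1 / (2 * s * C ^ 2)), by positivity, 1, ?_⟩
  intro W _ H hH n hn hdeg x
  classical
  have := Fintype.ofFinite W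
  have hn1 : (1 : ℝ) ≤ n := by exact_mod_cast hn
  have hn0 : (0 : ℝ) < n := by linarith
  obtain ⟨P, hP⟩ : ∃ P : ℝ, P = (n : ℝ) ^ (1 - 1 / (s : ℝ)) := ⟨_, rfl⟩
  have hP0 : 0 < P := by rw [hP]; positivity
  obtain ⟨d, hd⟩ : ∃ d : ℝ, d = P / C := ⟨_, rfl⟩
  have hd0 : 0 < d := by rw [hd]; positivity
  have hdx : ∀ v, d ≤ #{w : W | H.Adj v w} := by
    intro v
    have h1 := hdeg v
    rw [← hP] at h1
    have h2 : (H.neighborSet v).ncard = #{w : W | H.Adj v w} := by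
      rw [← Set.ncard_coe_finset]; congr 1; ext w; simp
    rw [h2] at h1
    rw [hd, div_le_iff₀ hC]
    linarith
  obtain ⟨A, hA⟩ : ∃ A : Finset W, A = ({w : W | H.Adj x w} : Finset W) := ⟨_, rfl⟩
  obtain ⟨B, hB⟩ : ∃ B : Finset W, (B : Set W) = ball H x 2 := ⟨(ball H x 2).toFinset, by simp⟩
  have hBc : (ball H x 2).ncard = #B := by rw [← hB, Set.ncard_coe_finset]
  rw [hBc]
  have hAd : d ≤ #A := by rw [hA]; exact hdx x
  have hA0 : (0 : ℝ) < #A := lt_of_lt_of_le hd0 hAd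
  have hcr : (#A : ℝ) * d ≤ cr H A B := by
    unfold cr
    rw [← nsmul_eq_mul]
    push_cast
    refine card_nsmul_le_sum _ _ _ fun a ha => ?_
    refine (hdx a).trans ?_
    have h1 : ({w : W | H.Adj a w} : Finset W) ⊆ {w ∈ B | H.Adj a w} := by
      intro w hw
      rw [mem_filter] at hw
      rw [mem_filter]
      refine ⟨?_, hw.2⟩
      have hxa : H.Adj x a := by rw [hA] at ha; exact (mem_filter.1 ha).2
      have h2 : w ∈ ball H x 2 := ⟨Walk.cons hxa (Walk.cons hw.2 Walk.nil), by simp⟩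
      rw [← hB] at h2
      exact h2
    exact_mod_cast card_le_card h1
  by_cases hcase : (s : ℝ) * #B ≤ #A * d / 2
  · have h1 := asym_kst' H s t (by omega) hH A B (#A * d / 2) (by positivity) (by linarith)
    have h2 : (#A : ℝ) ^ s * (d / 2) ^ s ≤ (#A : ℝ) ^ s * (t * (#B : ℝ) ^ (s - 1)) := by
      calc (#A : ℝ) ^ s * (d / 2) ^ s = (#A * d / 2) ^ s := by rw [← mul_pow]; ring
        _ ≤ _ := h1
        _ = _ := by ring
    have h3 := le_of_mul_le_mul_left h2 (by positivity)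
    have hPs : P ^ s = (n : ℝ) ^ (s - 1) := by
      rw [hP, ← Real.rpow_natCast ((n : ℝ) ^ (1 - 1 / (s : ℝ))), ← Real.rpow_mul hn0.le,
        ← Real.rpow_natCast]
      congr 1
      rw [Nat.cast_sub (by omega)]
      push_cast
      field_simp
    have h4 : (n : ℝ) ^ (s - 1) ≤ (2 * C) ^ s * (t * (#B : ℝ) ^ (s - 1)) := by
      rw [← hPs]
      have h5 : P ^ s = (2 * C) ^ s * (d / 2) ^ s := by
        rw [← mul_pow, hd]
        congr 1
        field_simp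
      rw [h5]
      exact mul_le_mul_of_nonneg_left h3 (by positivity)
    have h5 : (n : ℝ) ^ (s - 1) ≤ (M * #B) ^ (s - 1) := by
      refine h4.trans ?_
      rw [mul_pow M]
      calc (2 * C) ^ s * (t * (#B : ℝ) ^ (s - 1)) ≤ (2 * C) ^ s * ((t + 1) * (#B : ℝ) ^ (s - 1)) := by
            refine mul_le_mul_of_nonneg_left ?_ (by positivity)
            exact mul_le_mul_of_nonneg_right (by linarith) (by positivity)
        _ = ((2 * C) ^ s * (t + 1)) * (#B : ℝ) ^ (s - 1) := by ring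
        _ ≤ M * (#B : ℝ) ^ (s - 1) := mul_le_mul_of_nonneg_right hM2 (by positivity)
        _ ≤ M ^ (s - 1) * (#B : ℝ) ^ (s - 1) :=
          mul_le_mul_of_nonneg_right (le_self_pow₀ hM1 (by omega)) (by positivity)
    have h6 : (n : ℝ) ≤ M * #B := le_of_pow_le_pow_left₀ (by omega) (by positivity) h5
    calc min (1 / M) (1 / (2 * s * C ^ 2)) * n ≤ 1 / M * n :=
          mul_le_mul_of_nonneg_right (min_le_left _ _) hn0.le
      _ ≤ #B := by
        rw [one_div, inv_mul_le_iff₀ hM0]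
        exact h6
  · push Not at hcase
    have h1 : d * d ≤ #A * d := mul_le_mul_of_nonneg_right hAd hd0.le
    have h2 : (n : ℝ) ≤ P * P := by
      rw [hP, ← Real.rpow_add hn0]
      conv_lhs => rw [← Real.rpow_one (n : ℝ)]
      refine Real.rpow_le_rpow_of_exponent_le hn1 ?_
      have : (2 : ℝ) ≤ s := by exact_mod_cast hs
      have h1 : 1 / (s : ℝ) ≤ 1 / 2 := one_div_le_one_div_of_le (by norm_num) this
      linarith
    have h3 : (n : ℝ) / C ^ 2 ≤ d * d := by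
      rw [hd, div_mul_div_comm, ← pow_two C]
      exact div_le_div_of_nonneg_right h2 (by positivity)
    calc min (1 / M) (1 / (2 * s * C ^ 2)) * n ≤ 1 / (2 * s * C ^ 2) * n :=
          mul_le_mul_of_nonneg_right (min_le_right _ _) hn0.le
      _ = (n / C ^ 2) / 2 / s := by field_simp
      _ ≤ #B := by
        rw [div_le_iff₀ hs0]
        linarith

theorem bip_ne (s t : ℕ) (hs : 1 ≤ s) (ht : 1 ≤ t) :
    ∀ a, ∃ b, (completeBipartiteGraph (Fin s) (Fin t)).Adj a b := by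
  rintro (a | a)
  · exact ⟨Sum.inr ⟨0, by omega⟩, by simp⟩
  · exact ⟨Sum.inl ⟨0, by omega⟩, by simp⟩

theorem bip_bot (s t : ℕ) (hs : 1 ≤ s) (ht : 1 ≤ t) :
    completeBipartiteGraph (Fin s) (Fin t) ≠ ⊥ := by
  intro h
  obtain ⟨b, hb⟩ := bip_ne s t hs ht (Sum.inl ⟨0, by omega⟩)
  rw [h] at hb
  exact hb

end Pool.Agent.Q248.EX
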