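import Mathlib

/-!
# Cheeger's inequality: edge expansion implies a spectral gap
-/

set_option autoImplicit false

namespace Pool.Agent.Q248.EX

open Finset SimpleGraph

variable {W : Type} [Fintype W] [DecidableEq W] (H : SimpleGraph W) [DecidableRel H.Adj]

/-- the number of pairs `(x, y)` of adjacent vertices with `x ∈ S` and `y ∉ S` -/
def bdf (S : Finset W) : ℕ := #{p : W × W | p.1 ∈ S ∧ p.2 ∉ S ∧ H.Adj p.1 p.2}

/-- Sum of `F x y` over the ordered pairs of adjacent vertices. -/
def sAdj (F : W → W → ℝ) : ℝ := ∑ x, ∑ y, if H.Adj x y then F x y else 0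

omit [DecidableEq W] in
theorem sAdj_le {F G : W → W → ℝ} (h : ∀ x y, H.Adj x y → F x y ≤ G x y) :
    sAdj H F ≤ sAdj H G := by
  unfold sAdj
  refine sum_le_sum fun x _ => sum_le_sum fun y _ => ?_
  split_ifs with hxy
  · exact h x y hxy
  · exact le_rfl

omit [DecidableEq W] in
theorem sAdj_add (F G : W → W → ℝ) :
    sAdj H (fun x y => F x y + G x y) = sAdj H F + sAdj H G := by
  unfold sAdj
  rw [← sum_add_distrib]
  refine sum_congr rfl fun x _ => ?_
  rw [← sum_add_distrib]
  refine sum_congr rfl fun y _ => ?_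
  split_ifs <;> simp

omit [DecidableEq W] in
theorem sAdj_mul (c : ℝ) (F : W → W → ℝ) :
    sAdj H (fun x y => c * F x y) = c * sAdj H F := by
  unfold sAdj
  rw [mul_sum]
  refine sum_congr rfl fun x _ => ?_
  rw [mul_sum]
  refine sum_congr rfl fun y _ => ?_
  split_ifs <;> simp

theorem sAdj_bd (S : Finset W) :
    sAdj H (fun x y => |(if x ∈ S then (1 : ℝ) else 0) - (if y ∈ S then (1 : ℝ) else 0)|) =
      2 * bdf H S := by
  have h1 : sAdj H (fun x y => |(if x ∈ S then (1 : ℝ) else 0) - (if y ∈ S then (1 : ℝ) else 0)|) =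
      sAdj H (fun x y => if x ∈ S ∧ y ∉ S then 1 else 0) +
      sAdj H (fun x y => if y ∈ S ∧ x ∉ S then 1 else 0) := by
    rw [← sAdj_add]
    unfold sAdj
    refine sum_congr rfl fun x _ => sum_congr rfl fun y _ => ?_
    by_cases hx : x ∈ S <;> by_cases hy : y ∈ S <;> simp [hx, hy]
  have h2 : sAdj H (fun x y => if x ∈ S ∧ y ∉ S then 1 else 0) = bdf H S := by
    unfold sAdj bdf
    rw [card_filter, Fintype.sum_prod_type]
    push_cast
    refine sum_congr rfl fun x _ => sum_congr rfl fun y _ => ?_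
    by_cases hx : x ∈ S <;> by_cases hy : y ∈ S <;> by_cases hxy : H.Adj x y <;> simp [hx, hy, hxy]
  have h3 : sAdj H (fun x y => if y ∈ S ∧ x ∉ S then 1 else 0) = bdf H S := by
    rw [← h2]
    unfold sAdj
    rw [sum_comm]
    refine sum_congr rfl fun x _ => sum_congr rfl fun y _ => ?_
    simp only [H.adj_comm y x]
  rw [h1, h2, h3]
  ring

/-- The co-area inequality. -/
theorem coarea (b : ℝ) (hb : ∀ S : Finset W, 2 * #S ≤ Fintype.card W → b * #S ≤ bdf H S) :
    ∀ (m : ℕ) (u : W → ℝ), (∀ x, 0 ≤ u x) → #{x | 0 < u x} = m →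
      2 * #{x | 0 < u x} ≤ Fintype.card W → 2 * b * ∑ x, u x ≤ sAdj H (fun x y => |u x - u y|) := by
  intro m
  induction m using Nat.strong_induction_on with
  | _ m ih =>
    intro u hu hm hcard
    rcases Finset.eq_empty_or_nonempty ({x | 0 < u x} : Finset W) with h0 | hne
    · have h1 : ∀ x, u x = 0 := by
        intro x
        by_contra hx
        have : x ∈ ({x | 0 < u x} : Finset W) := by
          rw [mem_filter]; exact ⟨mem_univ _, lt_of_le_of_ne (hu x) (Ne.symm hx)⟩
        rw [h0] at this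
        simp at this
      have h2 : sAdj H (fun x y => |u x - u y|) = 0 := by
        unfold sAdj
        simp [h1]
      rw [h2]
      simp [h1]
    · obtain ⟨S, hS⟩ : ∃ S : Finset W, S = ({x | 0 < u x} : Finset W) := ⟨_, rfl⟩
      rw [← hS] at hne hm hcard
      have hmem : ∀ x, x ∈ S ↔ 0 < u x := by intro x; rw [hS]; simp
      obtain ⟨x₀, hx₀, hmin⟩ := exists_min_image S u hne
      obtain ⟨a, ha⟩ : ∃ a, a = u x₀ := ⟨_, rfl⟩
      have ha0 : 0 < a := by rw [ha]; exact (hmem x₀).1 hx₀
      obtain ⟨v, hv⟩ : ∃ v : W → ℝ, v = fun x => u x - a * (if x ∈ S then 1 else 0) := ⟨_, rfl⟩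
      have hv0 : ∀ x, 0 ≤ v x := by
        intro x
        rw [hv]
        simp only
        split_ifs with hx
        · have := hmin x hx
          rw [← ha] at this
          linarith
        · have := hu x
          linarith
      have hvS : ({x | 0 < v x} : Finset W) ⊆ S.erase x₀ := by
        intro x hx
        rw [mem_filter] at hx
        have hx2 := hx.2
        rw [hv] at hx2
        simp only at hx2
        rw [mem_erase]
        by_cases hxS : x ∈ S
        · refine ⟨?_, hxS⟩
          rintro rfl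
          rw [if_pos hxS, ← ha] at hx2
          linarith
        · rw [if_neg hxS] at hx2
          exact absurd ((hmem x).2 (by linarith)) hxS
      have hc := card_le_card hvS
      rw [card_erase_of_mem hx₀] at hc
      have hpos : 0 < #S := hne.card_pos
      have h1 := ih #{x | 0 < v x} (by omega) v hv0 rfl (by omega)
      have h2 : ∑ x, u x = ∑ x, v x + a * #S := by
        rw [hv]
        simp only
        rw [sum_sub_distrib, ← mul_sum]
        simp
      have h3 : sAdj H (fun x y => |u x - u y|) = sAdj H (fun x y => |v x - v y|) +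
          a * sAdj H (fun x y =>
            |(if x ∈ S then (1 : ℝ) else 0) - (if y ∈ S then (1 : ℝ) else 0)|) := by
        rw [← sAdj_mul, ← sAdj_add]
        unfold sAdj
        refine sum_congr rfl fun x _ => sum_congr rfl fun y _ => ?_
        by_cases hxy : H.Adj x y
        · rw [if_pos hxy, if_pos hxy]
          beta_reduce
          have hn : ∀ z, z ∉ S → u z = 0 := fun z hz =>
            le_antisymm (not_lt.1 fun h => hz ((hmem z).2 h)) (hu z)
          have hvx : ∀ z, z ∈ S → v z = u z - a := by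
            intro z hz; rw [hv]; simp only; rw [if_pos hz, mul_one]
          have hvn : ∀ z, z ∉ S → v z = 0 := by
            intro z hz; rw [hv]; simp only; rw [if_neg hz, hn z hz]; ring
          by_cases hx : x ∈ S <;> by_cases hy : y ∈ S
          · rw [hvx x hx, hvx y hy, if_pos hx, if_pos hy]
            simp
          · have h4 := hmin x hx
            rw [← ha] at h4
            rw [hvx x hx, hvn y hy, hn y hy, if_pos hx, if_neg hy]
            rw [abs_of_nonneg (by linarith), abs_of_nonneg (by linarith)]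
            norm_num
          · have h4 := hmin y hy
            rw [← ha] at h4
            rw [hvx y hy, hvn x hx, hn x hx, if_neg hx, if_pos hy]
            rw [abs_of_nonpos (by linarith), abs_of_nonpos (by linarith)]
            norm_num
          · rw [hvn x hx, hvn y hy, hn x hx, hn y hy, if_neg hx, if_neg hy]
            simp
        · rw [if_neg hxy, if_neg hxy]
      rw [sAdj_bd] at h3
      have h4 := hb S hcard
      rw [h2, h3]
      nlinarith

/-- For nonnegative functions with small support. -/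
theorem cheeger_pos (b Δ : ℝ) (hb0 : 0 < b) (hΔ : 0 < Δ)
    (hb : ∀ S : Finset W, 2 * #S ≤ Fintype.card W → b * #S ≤ bdf H S)
    (hdeg : ∀ x, (#{y | H.Adj x y} : ℝ) ≤ Δ) (h : W → ℝ) (hh : ∀ x, 0 ≤ h x)
    (hcard : 2 * #{x | 0 < h x} ≤ Fintype.card W) :
    b ^ 2 / Δ * ∑ x, h x ^ 2 ≤ sAdj H (fun x y => (h x - h y) ^ 2) := by
  obtain ⟨Q, hQ⟩ : ∃ Q, Q = ∑ x, h x ^ 2 := ⟨_, rfl⟩
  obtain ⟨D, hD⟩ : ∃ D, D = sAdj H (fun x y => (h x - h y) ^ 2) := ⟨_, rfl⟩
  have hQ0 : 0 ≤ Q := by rw [hQ]; exact sum_nonneg fun x _ => by positivity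
  have hD0 : 0 ≤ D := by
    rw [hD]
    unfold sAdj
    refine sum_nonneg fun x _ => sum_nonneg fun y _ => ?_
    split_ifs <;> positivity
  have hsupp : ({x | 0 < h x ^ 2} : Finset W) = ({x | 0 < h x} : Finset W) := by
    ext x
    simp only [mem_filter, mem_univ, true_and]
    constructor
    · intro hx
      rcases (hh x).eq_or_lt with h0 | h0
      · rw [← h0] at hx; norm_num at hx
      · exact h0
    · intro hx; positivity
  have h1 := coarea H b hb _ (fun x => h x ^ 2) (fun x => by positivity) rfl (by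
    rw [hsupp]; exact hcard)
  rw [← hQ] at h1
  -- Cauchy–Schwarz
  have hE : sAdj H (fun x y => (h x + h y) ^ 2) ≤ 4 * Δ * Q := by
    have h2 : sAdj H (fun x y => (h x + h y) ^ 2) ≤
        sAdj H (fun x y => 2 * h x ^ 2 + 2 * h y ^ 2) := by
      refine sAdj_le H fun x y _ => ?_
      nlinarith [sq_nonneg (h x - h y)]
    have h3 : sAdj H (fun x _ => 2 * h x ^ 2) ≤ 2 * Δ * Q := by
      unfold sAdj
      rw [hQ, mul_sum]
      refine sum_le_sum fun x _ => ?_
      rw [← sum_filter, sum_const, nsmul_eq_mul]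
      have := mul_le_mul_of_nonneg_right (hdeg x) (show 0 ≤ 2 * h x ^ 2 by positivity)
      linarith
    have h4 : sAdj H (fun _ y => 2 * h y ^ 2) = sAdj H (fun x _ => 2 * h x ^ 2) := by
      unfold sAdj
      rw [sum_comm]
      refine sum_congr rfl fun x _ => sum_congr rfl fun y _ => ?_
      simp only [H.adj_comm y x]
    have h5 := sAdj_add H (fun x _ => 2 * h x ^ 2) (fun _ y => 2 * h y ^ 2)
    rw [h5, h4] at h2
    linarith
  have hCS : (sAdj H (fun x y => |h x ^ 2 - h y ^ 2|)) ^ 2 ≤ D * (4 * Δ * Q) := by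
    have h2 : (sAdj H (fun x y => |h x ^ 2 - h y ^ 2|)) ^ 2 ≤
        D * sAdj H (fun x y => (h x + h y) ^ 2) := by
      rw [hD]
      unfold sAdj
      simp only [← Fintype.sum_prod_type']
      have h3 := sum_mul_sq_le_sq_mul_sq (univ : Finset (W × W))
        (fun p => if H.Adj p.1 p.2 then |h p.1 - h p.2| else 0)
        (fun p => if H.Adj p.1 p.2 then |h p.1 + h p.2| else 0)
      refine le_trans (le_of_eq ?_) (h3.trans (le_of_eq ?_))
      · congr 1
        refine sum_congr rfl fun p _ => ?_
        split_ifs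
        · rw [← abs_mul]; congr 1; ring
        · simp
      · congr 1
        · refine sum_congr rfl fun p _ => ?_
          split_ifs
          · rw [sq_abs]
          · simp
        · refine sum_congr rfl fun p _ => ?_
          split_ifs
          · rw [sq_abs]
          · simp
    exact h2.trans (mul_le_mul_of_nonneg_left hE hD0)
  rcases hQ0.eq_or_lt with h0 | h0
  · rw [← hQ, ← hD, ← h0, mul_zero]; exact hD0
  · have h2 : (2 * b * Q) ^ 2 ≤ D * (4 * Δ * Q) :=
      (pow_le_pow_left₀ (by positivity) h1 2).trans hCS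
    rw [← hQ, ← hD, div_mul_eq_mul_div, div_le_iff₀ hΔ]
    have h3 : (4 * Q) * (b ^ 2 * Q) ≤ (4 * Q) * (D * Δ) := by nlinarith
    exact le_of_mul_le_mul_left h3 (by positivity)

/-- There is a median. -/
theorem exists_median (f : W → ℝ) : ∃ m : ℝ, 2 * #{x | m < f x} ≤ Fintype.card W ∧
    2 * #{x | f x < m} ≤ Fintype.card W := by
  rcases isEmpty_or_nonempty W with hW | hW
  · exact ⟨0, by simp, by simp⟩
  -- the smallest value with `2 #{f > m} ≤ n`
  have hne : ({x | 2 * #{y | f x < f y} ≤ Fintype.card W} : Finset W).Nonempty := by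
    obtain ⟨x, _, hx⟩ := exists_max_image (univ : Finset W) f univ_nonempty
    refine ⟨x, ?_⟩
    rw [mem_filter]
    refine ⟨mem_univ _, ?_⟩
    have : ({y | f x < f y} : Finset W) = ∅ := by
      ext y
      simp only [mem_filter, mem_univ, true_and, notMem_empty, iff_false, not_lt]
      exact hx y (mem_univ _)
    rw [this]
    simp
  obtain ⟨x, hx, hmin⟩ := exists_min_image _ f hne
  rw [mem_filter] at hx
  refine ⟨f x, hx.2, ?_⟩
  by_contra hcon
  push Not at hcon
  have hne2 : ({y | f y < f x} : Finset W).Nonempty := by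
    rw [← card_pos]; omega
  obtain ⟨z, hz, hmax⟩ := exists_max_image _ f hne2
  have hz2 := (mem_filter.1 hz).2
  have hz3 : z ∉ ({x | 2 * #{y | f x < f y} ≤ Fintype.card W} : Finset W) := by
    intro h
    have := hmin z h
    linarith
  rw [mem_filter] at hz3
  push Not at hz3
  have hz4 := hz3 (mem_univ _)
  have hdisj : Disjoint ({y | f z < f y} : Finset W) ({y | f y < f x} : Finset W) := by
    rw [Finset.disjoint_left]
    intro y h1 h2
    have h3 := hmax y h2
    have h4 := (mem_filter.1 h1).2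
    linarith
  have h5 := card_le_univ (({y | f z < f y} : Finset W) ∪ ({y | f y < f x} : Finset W))
  rw [card_union_of_disjoint hdisj] at h5
  omega

/-- **Cheeger's inequality.** -/
theorem cheeger (b Δ : ℝ) (hb0 : 0 < b) (hΔ : 0 < Δ)
    (hb : ∀ S : Finset W, 2 * #S ≤ Fintype.card W → b * #S ≤ bdf H S)
    (hdeg : ∀ x, (#{y | H.Adj x y} : ℝ) ≤ Δ) (f : W → ℝ) (hf : ∑ x, f x = 0) :
    b ^ 2 / Δ * ∑ x, f x ^ 2 ≤ sAdj H (fun x y => (f x - f y) ^ 2) := by
  obtain ⟨m, hm1, hm2⟩ := exists_median f
  have h1 := cheeger_pos H b Δ hb0 hΔ hb hdeg (fun x => max (f x - m) 0)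
    (fun x => le_max_right _ _) (by
    refine le_trans (Nat.mul_le_mul_left 2 (card_le_card ?_)) hm1
    intro x hx
    rw [mem_filter] at hx ⊢
    refine ⟨mem_univ _, ?_⟩
    rcases lt_max_iff.1 hx.2 with h | h
    · linarith
    · exact absurd h (lt_irrefl _))
  have h2 := cheeger_pos H b Δ hb0 hΔ hb hdeg (fun x => max (m - f x) 0)
    (fun x => le_max_right _ _) (by
    refine le_trans (Nat.mul_le_mul_left 2 (card_le_card ?_)) hm2
    intro x hx
    rw [mem_filter] at hx ⊢
    refine ⟨mem_univ _, ?_⟩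
    rcases lt_max_iff.1 hx.2 with h | h
    · linarith
    · exact absurd h (lt_irrefl _))
  have h3 : sAdj H (fun x y => (max (f x - m) 0 - max (f y - m) 0) ^ 2) +
      sAdj H (fun x y => (max (m - f x) 0 - max (m - f y) 0) ^ 2) ≤
      sAdj H (fun x y => (f x - f y) ^ 2) := by
    rw [← sAdj_add]
    refine sAdj_le H fun x y _ => ?_
    rcases le_total (f x) m with hx | hx <;> rcases le_total (f y) m with hy | hy
    · rw [max_eq_right (by linarith : f x - m ≤ 0), max_eq_right (by linarith : f y - m ≤ 0),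
        max_eq_left (by linarith : 0 ≤ m - f x), max_eq_left (by linarith : 0 ≤ m - f y)]
      nlinarith
    · rw [max_eq_right (by linarith : f x - m ≤ 0), max_eq_left (by linarith : 0 ≤ f y - m),
        max_eq_left (by linarith : 0 ≤ m - f x), max_eq_right (by linarith : m - f y ≤ 0)]
      nlinarith [mul_nonneg (sub_nonneg.2 hx) (sub_nonneg.2 hy)]
    · rw [max_eq_left (by linarith : 0 ≤ f x - m), max_eq_right (by linarith : f y - m ≤ 0),
        max_eq_right (by linarith : m - f x ≤ 0), max_eq_left (by linarith : 0 ≤ m - f y)]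
      nlinarith [mul_nonneg (sub_nonneg.2 hx) (sub_nonneg.2 hy)]
    · rw [max_eq_left (by linarith : 0 ≤ f x - m), max_eq_left (by linarith : 0 ≤ f y - m),
        max_eq_right (by linarith : m - f x ≤ 0), max_eq_right (by linarith : m - f y ≤ 0)]
      nlinarith
  have h4 : ∑ x, f x ^ 2 ≤ ∑ x, max (f x - m) 0 ^ 2 + ∑ x, max (m - f x) 0 ^ 2 := by
    have h5 : ∑ x, max (f x - m) 0 ^ 2 + ∑ x, max (m - f x) 0 ^ 2 = ∑ x, (f x - m) ^ 2 := by
      rw [← sum_add_distrib]
      refine sum_congr rfl fun x _ => ?_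
      rcases le_total (f x) m with hx | hx
      · rw [max_eq_right (by linarith : f x - m ≤ 0), max_eq_left (by linarith : 0 ≤ m - f x)]
        ring
      · rw [max_eq_left (by linarith : 0 ≤ f x - m), max_eq_right (by linarith : m - f x ≤ 0)]
        ring
    rw [h5]
    have h6 : ∑ x, (f x - m) ^ 2 = ∑ x, f x ^ 2 - 2 * m * ∑ x, f x + ∑ x : W, m ^ 2 := by
      rw [mul_sum, ← sum_sub_distrib, ← sum_add_distrib]
      refine sum_congr rfl fun x _ => ?_
      ring
    rw [h6, hf, mul_zero, sub_zero]
    have : 0 ≤ ∑ x : W, m ^ 2 := sum_nonneg fun _ _ => by positivity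
    linarith
  have h5 : 0 ≤ b ^ 2 / Δ := by positivity
  have h6 := mul_le_mul_of_nonneg_left h4 h5
  linarith

end Pool.Agent.Q248.EX
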