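import Pool.Agent.Q248.EX.Real

/-!
# Decomposition in expanders: classes of graphs closed under induced subgraphs
-/

set_option autoImplicit false

namespace Pool.Agent.Q248.EX

open Finset SimpleGraph

/-- The number of edges with exactly one end in `S`. -/
noncomputable def bd {W : Type} (H : SimpleGraph W) (S : Set W) : ℕ :=
  {p : W × W | p.1 ∈ S ∧ p.2 ∉ S ∧ H.Adj p.1 p.2}.ncard

/-- The vertices that can be reached from `x` by walks of length at most `i`. -/
def ball {W : Type} (H : SimpleGraph W) (x : W) (i : ℕ) : Set W :=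
  {w | ∃ p : H.Walk x w, p.length ≤ i}

/-- Vertex expansion implies bounded diameter if some balls are large. -/
theorem diam_aux {W : Type} [Finite W] (H : SimpleGraph W) (r : ℕ) (a β : ℝ) (ha : 0 ≤ a)
    (hβ : 0 < β) (x : W) (hball : a ≤ (ball H x r).ncard)
    (hexp : ∀ S : Set W, β * min (S.ncard : ℝ) (Sᶜ.ncard : ℝ) ≤
      {w : W | w ∉ S ∧ ∃ v ∈ S, H.Adj v w}.ncard) (j : ℕ) :
    Nat.card W < 2 * (ball H x (r + j)).ncard ∨ a * (1 + j * β) ≤ (ball H x (r + j)).ncard := by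
  induction j with
  | zero => right; simpa using hball
  | succ j ih =>
    have hsub : ball H x (r + j) ∪ {w : W | w ∉ ball H x (r + j) ∧ ∃ v ∈ ball H x (r + j), H.Adj v w} ⊆
        ball H x (r + (j + 1)) := by
      rintro w (⟨p, hp⟩ | ⟨_, v, ⟨p, hp⟩, hvw⟩)
      · exact ⟨p, by omega⟩
      · exact ⟨p.concat hvw, by rw [Walk.length_concat]; omega⟩
    have hcard := Set.ncard_le_ncard hsub (Set.toFinite _)
    rw [Set.ncard_union_eq (by
      rw [Set.disjoint_left]
      intro w h1 h2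
      exact h2.1 h1) (Set.toFinite _) (Set.toFinite _)] at hcard
    rcases ih with h | h
    · left
      have := Nat.le_of_add_right_le hcard
      omega
    · by_cases hbig : Nat.card W < 2 * (ball H x (r + j)).ncard
      · left
        have := Nat.le_of_add_right_le hcard
        omega
      · right
        have h1 := hexp (ball H x (r + j))
        have h2 : (ball H x (r + j)).ncard + (ball H x (r + j))ᶜ.ncard = Nat.card W :=
          Set.ncard_add_ncard_compl _
        have h3 : (ball H x (r + j)).ncard ≤ (ball H x (r + j))ᶜ.ncard := by omega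
        have h4 : ((ball H x (r + j)).ncard : ℝ) ≤ (ball H x (r + j))ᶜ.ncard := by
          exact_mod_cast h3
        rw [min_eq_left h4] at h1
        have h5 : ((ball H x (r + j)).ncard : ℝ) +
            {w : W | w ∉ ball H x (r + j) ∧ ∃ v ∈ ball H x (r + j), H.Adj v w}.ncard ≤
            (ball H x (r + (j + 1))).ncard := by exact_mod_cast hcard
        have h6 : a ≤ (ball H x (r + j)).ncard := by
          refine le_trans ?_ h
          have : 0 ≤ a * (j * β) := by positivity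
          nlinarith
        push_cast
        nlinarith

/-- Bounded diameter. -/
theorem diam {W : Type} [Finite W] (H : SimpleGraph W) (r J : ℕ) (a β : ℝ) (ha : 0 ≤ a)
    (hβ : 0 < β) (hball : ∀ x, a ≤ (ball H x r).ncard)
    (hexp : ∀ S : Set W, β * min (S.ncard : ℝ) (Sᶜ.ncard : ℝ) ≤
      {w : W | w ∉ S ∧ ∃ v ∈ S, H.Adj v w}.ncard) (hJ : (Nat.card W : ℝ) < 2 * (a * (1 + J * β)))
    (x y : W) : ∃ p : H.Walk x y, p.length ≤ 2 * (r + J) := by
  have h : ∀ x, Nat.card W < 2 * (ball H x (r + J)).ncard := by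
    intro x
    rcases diam_aux H r a β ha hβ x (hball x) hexp J with h | h
    · exact h
    · have : (Nat.card W : ℝ) < 2 * (ball H x (r + J)).ncard := by linarith
      exact_mod_cast this
  have hx := h x
  have hy := h y
  have hne : (ball H x (r + J) ∩ ball H y (r + J)).Nonempty := by
    rw [Set.nonempty_iff_ne_empty]
    intro h0
    have h1 := Set.ncard_union_eq (Set.disjoint_iff_inter_eq_empty.2 h0) (Set.toFinite _)
      (Set.toFinite _)
    have h2 := Set.ncard_le_card (ball H x (r + J) ∪ ball H y (r + J))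
    omega
  obtain ⟨z, ⟨p, hp⟩, ⟨q, hq⟩⟩ := hne
  exact ⟨p.append q.reverse, by rw [Walk.length_append, Walk.length_reverse]; omega⟩

/-- Edge expansion and bounded degrees imply vertex expansion. -/
theorem vertex_exp {W : Type} [Finite W] (H : SimpleGraph W) (Δ b : ℝ) (hΔ : 0 < Δ)
    (hdeg : ∀ x, ((H.neighborSet x).ncard : ℝ) ≤ Δ)
    (hexp : ∀ S : Set W, b * min (S.ncard : ℝ) (Sᶜ.ncard : ℝ) ≤ bd H S) (S : Set W) :
    b / Δ * min (S.ncard : ℝ) (Sᶜ.ncard : ℝ) ≤ {w : W | w ∉ S ∧ ∃ v ∈ S, H.Adj v w}.ncard := by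
  classical
  have := Fintype.ofFinite W
  have h1 : (bd H S : ℝ) ≤ Δ * {w : W | w ∉ S ∧ ∃ v ∈ S, H.Adj v w}.ncard := by
    set N : Finset W := univ.filter (fun w => w ∉ S ∧ ∃ v ∈ S, H.Adj v w) with hN
    have e1 : {w : W | w ∉ S ∧ ∃ v ∈ S, H.Adj v w}.ncard = #N := by
      rw [← Set.ncard_coe_finset]; congr 1; ext w; simp [hN]
    have e2 : bd H S ≤ ∑ w ∈ N, #(univ.filter fun v => H.Adj w v) := by
      have e3 : bd H S = #(univ.filter fun p : W × W => p.1 ∈ S ∧ p.2 ∉ S ∧ H.Adj p.1 p.2) := by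
        unfold bd
        rw [← Set.ncard_coe_finset]; congr 1; ext w; simp
      rw [e3, ← card_sigma]
      refine card_le_card_of_injOn (fun p => ⟨p.2, p.1⟩) ?_ ?_
      · intro p hp
        simp only [mem_coe, mem_filter, mem_univ, true_and] at hp
        simp only [coe_sigma, Set.mem_sigma_iff, mem_coe, hN, mem_filter, mem_univ, true_and]
        exact ⟨⟨hp.2.1, p.1, hp.1, hp.2.2⟩, hp.2.2.symm⟩
      · intro p _ q _ hpq
        simp only [Sigma.mk.injEq, heq_eq_eq] at hpq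
        exact Prod.ext hpq.2 hpq.1
    rw [e1]
    have e4 : ∀ w ∈ N, (#(univ.filter fun v => H.Adj w v) : ℝ) ≤ Δ := by
      intro w _
      refine le_trans (le_of_eq ?_) (hdeg w)
      rw [← Set.ncard_coe_finset]; congr 2; ext v; simp
    calc (bd H S : ℝ) ≤ ((∑ w ∈ N, #(univ.filter fun v => H.Adj w v) : ℕ) : ℝ) := by
          exact_mod_cast e2
      _ = ∑ w ∈ N, (#(univ.filter fun v => H.Adj w v) : ℝ) := by push_cast; rfl
      _ ≤ ∑ w ∈ N, Δ := sum_le_sum e4
      _ = Δ * #N := by rw [sum_const, nsmul_eq_mul]; ring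
  have h2 := (hexp S).trans h1
  rw [div_mul_eq_mul_div, div_le_iff₀ hΔ]
  linarith

theorem cr_induce {V : Type} [Fintype V] [DecidableEq V] (G : SimpleGraph V) [DecidableRel G.Adj]
    (U : Finset V) : cr G U U = 2 * (G.induce (U : Set V)).edgeSet.ncard := by
  classical
  have h1 := (G.induce (U : Set V)).dart_card_eq_twice_card_edges
  have h2 : (G.induce (U : Set V)).edgeSet.ncard = (G.induce (U : Set V)).edgeFinset.card :=
    Set.ncard_eq_toFinset_card' _
  rw [h2, ← h1, cr_eq, ← Fintype.card_coe]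
  refine Fintype.card_congr ?_
  refine ⟨fun q => ⟨(⟨q.1.1, ?_⟩, ⟨q.1.2, ?_⟩), ?_⟩,
    fun d => ⟨(d.fst.1, d.snd.1), ?_⟩, fun q => rfl, fun d => rfl⟩
  · have := (mem_filter.1 q.2).1; exact (mem_product.1 this).1
  · have := (mem_filter.1 q.2).1; exact (mem_product.1 this).2
  · exact (mem_filter.1 q.2).2
  · rw [mem_filter, mem_product]
    exact ⟨⟨d.fst.2, d.snd.2⟩, d.adj⟩

theorem nbr_induce {V : Type} [Fintype V] [DecidableEq V] (G : SimpleGraph V) [DecidableRel G.Adj]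
    (U : Finset V) (x : (U : Set V)) :
    ((G.induce (U : Set V)).neighborSet x).ncard = #{y ∈ U | G.Adj x y} := by
  rw [← Set.ncard_image_of_injective _ Subtype.val_injective, ← Set.ncard_coe_finset]
  congr 1
  ext w
  simp only [Set.mem_image, mem_neighborSet, coe_filter, Set.mem_ofPred_eq]
  constructor
  · rintro ⟨y, hy, rfl⟩
    exact ⟨y.2, hy⟩
  · rintro ⟨h1, h2⟩
    exact ⟨⟨w, h1⟩, h2, rfl⟩

/-- `H` is an expander of the order `n` with degrees of the order `n ^ α` and diameter `≤ C`. -/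
structure Exp {W : Type} (H : SimpleGraph W) (n α C : ℝ) : Prop where
  order : n ≤ C * Nat.card W
  deg_ge : ∀ x, n ^ α ≤ C * (H.neighborSet x).ncard
  deg_le : ∀ x, ((H.neighborSet x).ncard : ℝ) ≤ C * n ^ α
  exp : ∀ S : Set W, n ^ α * min (S.ncard : ℝ) (Sᶜ.ncard : ℝ) ≤ C * bd H S
  diam : ∀ x y, ∃ p : H.Walk x y, (p.length : ℝ) ≤ C

theorem main (P : ∀ V : Type, SimpleGraph V → Prop)
    (hind : ∀ (V : Type) (G : SimpleGraph V) (K : Set V), P V G → P K (G.induce K))
    (α : ℝ) (hα : 0 < α) (C₀ : ℝ)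
    (hub : ∀ (V : Type) [Finite V] (G : SimpleGraph V), P V G →
      (G.edgeSet.ncard : ℝ) ≤ C₀ * (Nat.card V : ℝ) ^ (1 + α))
    (hreg : ∀ ε η : ℝ, 0 < ε → 0 < η → ∃ C : ℝ, 0 < C ∧ ∃ n₀ : ℕ, ∀ (V : Type) [Finite V]
      (G : SimpleGraph V), P V G → n₀ ≤ Nat.card V →
      ε * (Nat.card V : ℝ) ^ (1 + α) ≤ G.edgeSet.ncard →
      ∃ K : Set V, (1 - η) * G.edgeSet.ncard ≤ (G.induce K).edgeSet.ncard ∧
        ∀ x ∈ K, ({w : V | w ∈ K ∧ G.Adj x w}.ncard : ℝ) ≤ C * (Nat.card V : ℝ) ^ α)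
    (hball : ∀ C : ℝ, 0 < C → ∃ (r : ℕ) (c : ℝ), 0 < c ∧ ∃ n₀ : ℕ, ∀ (W : Type) [Finite W]
      (H : SimpleGraph W), P W H → ∀ n : ℕ, n₀ ≤ n →
      (∀ x, (n : ℝ) ^ α ≤ C * (H.neighborSet x).ncard) → ∀ x, c * n ≤ (ball H x r).ncard)
    (ε η : ℝ) (hε : 0 < ε) (hη : 0 < η) :
    ∃ C : ℝ, 0 < C ∧ ∃ n₀ : ℕ, ∀ (V : Type) [Finite V] (G : SimpleGraph V), P V G →
      n₀ ≤ Nat.card V → ε * (Nat.card V : ℝ) ^ (1 + α) ≤ G.edgeSet.ncard →
      ∃ (m : ℕ) (U : Fin m → Set V), (m : ℝ) ≤ C ∧ (∀ i j, i ≠ j → Disjoint (U i) (U j)) ∧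
        (1 - η) * G.edgeSet.ncard ≤ ∑ i, ((G.induce (U i)).edgeSet.ncard : ℝ) ∧
        ∀ i, Exp (G.induce (U i)) (Nat.card V) α C := by
  classical
  -- we may assume `η ≤ 1`
  obtain ⟨η', hη'⟩ : ∃ η' : ℝ, η' = min η 1 / 2 := ⟨_, rfl⟩
  have hη'0 : 0 < η' := by rw [hη']; have : 0 < min η 1 := lt_min hη one_pos; positivity
  have hη'1 : η' ≤ 1 / 2 := by rw [hη']; have := min_le_right η 1; linarith
  have hη'2 : 2 * η' ≤ η := by rw [hη']; have := min_le_left η 1; linarith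
  obtain ⟨Δ, hΔ, n₁, hreg'⟩ := hreg ε η' hε hη'0
  obtain ⟨C₁, hC₁⟩ : ∃ C₁ : ℝ, C₁ = max (2 * C₀) 1 := ⟨_, rfl⟩
  have hC₁0 : 0 < C₁ := by rw [hC₁]; exact lt_of_lt_of_le one_pos (le_max_right _ _)
  obtain ⟨C₂, hC₂, hdec⟩ := decomp_real α C₁ ε η' Δ hα hC₁0 hε hη'0 hΔ
  have hC₂0 : 0 < C₂ := by linarith
  obtain ⟨r, c, hc, n₂, hball'⟩ := hball C₂ hC₂0
  obtain ⟨β, hβ⟩ : ∃ β : ℝ, β = 1 / C₂ ^ 2 := ⟨_, rfl⟩
  have hβ0 : 0 < β := by rw [hβ]; positivity
  obtain ⟨J, hJ⟩ := exists_nat_gt (1 / (2 * c * β))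
  have hJ' : 1 < 2 * (c * (1 + J * β)) := by
    rw [div_lt_iff₀ (by positivity)] at hJ
    have : 0 < 2 * c := by positivity
    nlinarith
  obtain ⟨C, hC⟩ : ∃ C : ℝ, C = max C₂ (2 * (r + J)) := ⟨_, rfl⟩
  have hCC₂ : C₂ ≤ C := hC ▸ le_max_left _ _
  have hCJ : 2 * ((r : ℝ) + J) ≤ C := hC ▸ le_max_right _ _
  have hC0 : 0 < C := by linarith
  refine ⟨C, hC0, n₁ + n₂ + 1, ?_⟩
  intro V _ G hG hn he
  have := Fintype.ofFinite V
  obtain ⟨K, hK1, hK2⟩ := hreg' V G hG (by omega) he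
  have hcard : (Fintype.card V : ℝ) = (Nat.card V : ℝ) := by rw [Nat.card_eq_fintype_card]
  have hn1 : (1 : ℝ) ≤ Nat.card V := by exact_mod_cast (by omega : 1 ≤ Nat.card V)
  obtain ⟨W, hW⟩ : ∃ W : Finset V, (W : Set V) = K := ⟨K.toFinset, by simp⟩
  have hWcr : (cr G W W : ℝ) = 2 * (G.induce K).edgeSet.ncard := by
    rw [cr_induce, hW]; push_cast; ring
  have he0 : (0 : ℝ) ≤ G.edgeSet.ncard := by positivity
  obtain ⟨P', hP1, hP2, hP3, hP4⟩ := hdec V G (Nat.card V : ℝ) hn1 hcard.le (by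
    intro U
    rw [cr_induce]
    have h1 := hub (U : Set V) (G.induce (U : Set V)) (hind V G U hG)
    rw [Nat.card_coe_set_eq, Set.ncard_coe_finset] at h1
    have h2 : (2 * C₀) * (#U : ℝ) ^ (1 + α) ≤ C₁ * (#U : ℝ) ^ (1 + α) :=
      mul_le_mul_of_nonneg_right (hC₁ ▸ le_max_left _ _) (by positivity)
    rw [Nat.cast_mul, Nat.cast_ofNat]
    refine le_trans ?_ h2
    rw [mul_assoc]
    exact mul_le_mul_of_nonneg_left h1 (by norm_num)) W (by
    intro x hx
    have hxK : x ∈ K := by rw [← hW]; exact hx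
    refine le_trans (le_of_eq ?_) (hK2 x hxK)
    rw [← Set.ncard_coe_finset]
    congr 2
    ext w
    simp [← hW]) (by
    rw [hWcr]
    have : (1 / 2 : ℝ) * G.edgeSet.ncard ≤ (G.induce K).edgeSet.ncard := by
      refine le_trans ?_ hK1
      exact mul_le_mul_of_nonneg_right (by linarith) he0
    linarith)
  obtain ⟨e⟩ : Nonempty (Fin (#P') ≃ P') := ⟨P'.equivFin.symm⟩
  refine ⟨#P', fun i => ((e i : Finset V) : Set V), hP1.trans hCC₂, ?_, ?_, ?_⟩
  · intro i j hij
    have h1 : (e i : Finset V) ≠ (e j : Finset V) := by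
      intro h
      exact hij (e.injective (Subtype.ext h))
    have h2 := hP2 _ (e i).2 _ (e j).2 h1
    exact disjoint_coe.2 h2
  · have h1 : ∑ i, ((G.induce ((e i : Finset V) : Set V)).edgeSet.ncard : ℝ) =
        ∑ U ∈ P', ((G.induce (U : Set V)).edgeSet.ncard : ℝ) := by
      rw [← sum_coe_sort P']
      exact Equiv.sum_comp e (fun U : P' => ((G.induce ((U : Finset V) : Set V)).edgeSet.ncard : ℝ))
    rw [h1]
    have h2 : ∑ U ∈ P', (cr G U U : ℝ) = 2 * ∑ U ∈ P', ((G.induce (U : Set V)).edgeSet.ncard : ℝ) := by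
      rw [mul_sum]
      refine sum_congr rfl fun U _ => ?_
      rw [cr_induce]; push_cast; ring
    rw [h2, hWcr] at hP3
    have h3 : (1 - η') * ((1 - η') * (G.edgeSet.ncard : ℝ)) ≤
        (1 - η') * (G.induce K).edgeSet.ncard :=
      mul_le_mul_of_nonneg_left hK1 (by linarith)
    have h4 : (1 - η) * (G.edgeSet.ncard : ℝ) ≤ (1 - η') * ((1 - η') * (G.edgeSet.ncard : ℝ)) := by
      have : (1 - η) ≤ (1 - η') * (1 - η') := by nlinarith
      calc (1 - η) * (G.edgeSet.ncard : ℝ) ≤ (1 - η') * (1 - η') * G.edgeSet.ncard :=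
            mul_le_mul_of_nonneg_right this he0
        _ = _ := by ring
    linarith
  · intro i
    obtain ⟨_, h2, h3, h4⟩ := hP4 _ (e i).2
    show Exp (G.induce ((e i : Finset V) : Set V)) (Nat.card V) α C
    obtain ⟨U, hU⟩ : ∃ U : Finset V, U = (e i : Finset V) := ⟨_, rfl⟩
    rw [← hU] at h2 h3 h4 ⊢
    have hbd : ∀ S : Set (U : Set V),
        (Nat.card V : ℝ) ^ α * min (S.ncard : ℝ) (Sᶜ.ncard : ℝ) ≤ C₂ * bd (G.induce (U : Set V)) S := by
      intro S
      obtain ⟨A, hA⟩ : ∃ A : Finset V, (A : Set V) = Subtype.val '' S :=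
        ⟨(Subtype.val '' S : Set V).toFinset, by simp⟩
      obtain ⟨B, hB⟩ : ∃ B : Finset V, (B : Set V) = Subtype.val '' Sᶜ :=
        ⟨(Subtype.val '' Sᶜ : Set V).toFinset, by simp⟩
      have hAc : S.ncard = #A := by
        rw [← Set.ncard_coe_finset, hA, Set.ncard_image_of_injective _ Subtype.val_injective]
      have hBc : Sᶜ.ncard = #B := by
        rw [← Set.ncard_coe_finset, hB, Set.ncard_image_of_injective _ Subtype.val_injective]
      have hAB : Disjoint A B := by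
        rw [← disjoint_coe, hA, hB]
        exact (Set.disjoint_image_iff Subtype.val_injective).2 disjoint_compl_right
      have hABU : A ∪ B = U := by
        apply coe_injective
        rw [coe_union, hA, hB, ← Set.image_union, Set.union_compl_self, Set.image_univ,
          Subtype.range_coe_subtype]
        ext; simp
      have h5 := h4 A B hAB hABU
      rw [hAc, hBc]
      refine h5.trans (le_of_eq ?_)
      congr 2
      rw [cr_eq]
      unfold bd
      have hinj : Function.Injective (fun p : ↥(U : Set V) × ↥(U : Set V) => ((p.1 : V), (p.2 : V))) := by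
        rintro ⟨x, y⟩ ⟨x', y'⟩ h
        obtain ⟨h1, h2⟩ := Prod.mk.inj h
        exact Prod.ext (Subtype.ext h1) (Subtype.ext h2)
      rw [← Set.ncard_image_of_injective _ hinj, ← Set.ncard_coe_finset]
      congr 1
      ext ⟨a, b⟩
      have hmA : ∀ a : V, a ∈ A ↔ ∃ h : a ∈ (U : Set V), (⟨a, h⟩ : (U : Set V)) ∈ S := by
        intro a
        rw [← mem_coe, hA]
        constructor
        · rintro ⟨x, hx, rfl⟩
          exact ⟨x.2, hx⟩
        · rintro ⟨h, hx⟩
          exact ⟨⟨a, h⟩, hx, rfl⟩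
      have hmB : ∀ a : V, a ∈ B ↔ ∃ h : a ∈ (U : Set V), (⟨a, h⟩ : (U : Set V)) ∉ S := by
        intro a
        rw [← mem_coe, hB]
        constructor
        · rintro ⟨x, hx, rfl⟩
          exact ⟨x.2, hx⟩
        · rintro ⟨h, hx⟩
          exact ⟨⟨a, h⟩, hx, rfl⟩
      rw [coe_filter]
      constructor
      · rintro ⟨h1, h2⟩
        obtain ⟨h1a, h1b⟩ := mem_product.1 h1
        obtain ⟨ha, ha'⟩ := (hmA _).1 h1a
        obtain ⟨hb, hb'⟩ := (hmB _).1 h1b
        exact ⟨(⟨a, ha⟩, ⟨b, hb⟩), ⟨ha', hb', h2⟩, rfl⟩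
      · rintro ⟨⟨x, y⟩, ⟨hx, hy, hxy⟩, hxy'⟩
        obtain ⟨rfl, rfl⟩ := Prod.mk.inj hxy'
        exact ⟨mem_product.2 ⟨(hmA _).2 ⟨x.2, hx⟩, (hmB _).2 ⟨y.2, hy⟩⟩, hxy⟩
    have hdge : ∀ x : (U : Set V), (Nat.card V : ℝ) ^ α ≤
        C₂ * ((G.induce (U : Set V)).neighborSet x).ncard := by
      intro x
      rw [nbr_induce]
      exact (h3 x x.2).1
    have hdle : ∀ x : (U : Set V), (((G.induce (U : Set V)).neighborSet x).ncard : ℝ) ≤
        C₂ * (Nat.card V : ℝ) ^ α := by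
      intro x
      rw [nbr_induce]
      exact (h3 x x.2).2
    have hnα : (0 : ℝ) < (Nat.card V : ℝ) ^ α := by positivity
    refine ⟨?_, ?_, ?_, ?_, ?_⟩
    · rw [Nat.card_coe_set_eq, Set.ncard_coe_finset]
      exact h2.trans (mul_le_mul_of_nonneg_right hCC₂ (by positivity))
    · intro x
      exact (hdge x).trans (mul_le_mul_of_nonneg_right hCC₂ (by positivity))
    · intro x
      exact (hdle x).trans (mul_le_mul_of_nonneg_right hCC₂ hnα.le)
    · intro S
      exact (hbd S).trans (mul_le_mul_of_nonneg_right hCC₂ (by positivity))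
    · intro x y
      have hv : ∀ S : Set (U : Set V), β * min (S.ncard : ℝ) (Sᶜ.ncard : ℝ) ≤
          {w : (U : Set V) | w ∉ S ∧ ∃ v ∈ S, (G.induce (U : Set V)).Adj v w}.ncard := by
        intro S
        have h5 := vertex_exp (G.induce (U : Set V)) (C₂ * (Nat.card V : ℝ) ^ α)
          ((Nat.card V : ℝ) ^ α / C₂) (by positivity) hdle (fun S => by
            rw [div_mul_eq_mul_div, div_le_iff₀ hC₂0]
            have := hbd S
            linarith) S
        have h6 : (Nat.card V : ℝ) ^ α / C₂ / (C₂ * (Nat.card V : ℝ) ^ α) = β := by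
          rw [hβ]; field_simp
        rwa [h6] at h5
      have hb : ∀ x, c * (Nat.card V : ℝ) ≤ (ball (G.induce (U : Set V)) x r).ncard :=
        hball' _ _ (hind V G _ hG) (Nat.card V) (by omega) hdge
      have hcd : (Nat.card (U : Set V) : ℝ) ≤ Nat.card V := by
        exact_mod_cast Nat.card_le_card_of_injective _ Subtype.val_injective
      obtain ⟨p, hp⟩ := diam (G.induce (U : Set V)) r J (c * (Nat.card V : ℝ)) β (by positivity)
        hβ0 hb hv (by
          have h7 : (Nat.card V : ℝ) * 1 < Nat.card V * (2 * (c * (1 + J * β))) :=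
            mul_lt_mul_of_pos_left hJ' (by linarith)
          nlinarith) x y
      refine ⟨p, le_trans ?_ hCJ⟩
      exact_mod_cast hp

end Pool.Agent.Q248.EX
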