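import Pool.Agent.Q248.EX.Cls

/-!
# Turán type lower bounds are equivalent to their bipartite expander form
-/

set_option autoImplicit false

namespace Pool.Agent.Q248.EX

open Finset SimpleGraph

theorem darts {V : Type} [Fintype V] (G : SimpleGraph V) [DecidableRel G.Adj] :
    #{p : V × V | G.Adj p.1 p.2} = 2 * G.edgeSet.ncard := by
  classical
  have h1 := G.dart_card_eq_twice_card_edges
  have h2 : G.edgeSet.ncard = G.edgeFinset.card := Set.ncard_eq_toFinset_card' _
  rw [h2, ← h1, ← Fintype.card_subtype]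
  refine Fintype.card_congr ?_
  exact ⟨fun q => ⟨(q.1.1, q.1.2), q.2⟩, fun d => ⟨(d.fst, d.snd), d.adj⟩, fun q => rfl,
    fun d => rfl⟩

/-- Every graph has a bipartite subgraph with at least half of the edges. -/
theorem maxcut {V : Type} [Finite V] (G : SimpleGraph V) :
    ∃ B : SimpleGraph V, B ≤ G ∧ B.Colorable 2 ∧ G.edgeSet.ncard ≤ 2 * B.edgeSet.ncard := by
  classical
  have := Fintype.ofFinite V
  by_contra hcon
  push Not at hcon
  let B : (V → Bool) → SimpleGraph V := fun f =>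
    { Adj := fun u v => G.Adj u v ∧ f u ≠ f v
      symm := ⟨fun u v h => ⟨h.1.symm, h.2.symm⟩⟩
      loopless := ⟨fun u h => G.loopless.irrefl u h.1⟩ }
  have hB : ∀ f, 2 * (2 * (B f).edgeSet.ncard) < 2 * G.edgeSet.ncard := by
    intro f
    have h1 := hcon (B f) (fun u v h => h.1) (by
      refine ⟨Coloring.mk (fun v => if f v then 0 else 1) ?_⟩
      intro u v h
      have h2 : f u ≠ f v := h.2
      cases hu : f u <;> cases hv : f v <;> simp_all)
    omega
  have hd : ∀ (G' : SimpleGraph V) (inst : DecidablePred fun p : V × V => G'.Adj p.1 p.2),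
      (@Finset.filter _ (fun p : V × V => G'.Adj p.1 p.2) inst univ).card =
        2 * G'.edgeSet.ncard := by
    intro G' inst
    rw [← darts G']
    congr
  have h2 : ∑ f : V → Bool, 2 * #{p : V × V | (B f).Adj p.1 p.2} <
      ∑ f : V → Bool, #{p : V × V | G.Adj p.1 p.2} := by
    apply sum_lt_sum_of_nonempty ⟨fun _ => true, mem_univ _⟩
    intro f _
    rw [hd, hd]
    exact hB f
  have h3 : ∑ f : V → Bool, 2 * #{p : V × V | (B f).Adj p.1 p.2} =
      ∑ p : V × V, if G.Adj p.1 p.2 then 2 * #{f : V → Bool | f p.1 ≠ f p.2} else 0 := by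
    simp only [card_filter, mul_sum]
    rw [sum_comm]
    refine sum_congr rfl fun p _ => ?_
    by_cases hp : G.Adj p.1 p.2
    · rw [if_pos hp]
      refine sum_congr rfl fun f _ => ?_
      have : (B f).Adj p.1 p.2 ↔ f p.1 ≠ f p.2 := ⟨fun h => h.2, fun h => ⟨hp, h⟩⟩
      simp only [this]
    · rw [if_neg hp]
      refine sum_eq_zero fun f _ => ?_
      have : ¬ (B f).Adj p.1 p.2 := fun h => hp h.1
      rw [if_neg this, mul_zero]
  have h4 : ∀ u v : V, u ≠ v → 2 * #{f : V → Bool | f u ≠ f v} = Fintype.card (V → Bool) := by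
    intro u v huv
    have h5 : #{f : V → Bool | f u ≠ f v} = #{f : V → Bool | ¬ f u ≠ f v} := by
      refine card_bij' (fun f _ => Function.update f u (!f u)) (fun f _ => Function.update f u (!f u))
        ?_ ?_ ?_ ?_
      · intro f hf
        rw [mem_filter] at hf ⊢
        refine ⟨mem_univ _, ?_⟩
        rw [Function.update_self, Function.update_of_ne huv.symm]
        have := hf.2
        cases h1 : f u <;> cases h2 : f v <;> simp_all
      · intro f hf
        rw [mem_filter] at hf ⊢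
        refine ⟨mem_univ _, ?_⟩
        rw [Function.update_self, Function.update_of_ne huv.symm]
        have := hf.2
        cases h1 : f u <;> cases h2 : f v <;> simp_all
      · intro f hf
        simp
      · intro f hf
        simp
    have h6 := card_filter_add_card_filter_not (s := (univ : Finset (V → Bool)))
      (fun f => f u ≠ f v)
    rw [card_univ] at h6
    omega
  have h5 : ∑ f : V → Bool, #{p : V × V | G.Adj p.1 p.2} =
      ∑ p : V × V, if G.Adj p.1 p.2 then Fintype.card (V → Bool) else 0 := by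
    rw [sum_const, card_univ, smul_eq_mul, card_filter, mul_sum]
    refine sum_congr rfl fun p _ => ?_
    split_ifs <;> simp
  rw [h3, h5] at h2
  refine lt_irrefl _ (lt_of_le_of_lt (le_of_eq ?_) h2)
  refine sum_congr rfl fun p _ => ?_
  split_ifs with hp
  · exact (h4 _ _ hp.ne).symm
  · rfl

/-- Free graphs after adding isolated vertices. -/
theorem free_map {A V W : Type} {F : SimpleGraph A} (hF : ∀ a, ∃ b, F.Adj a b) (e : V ↪ W)
    {G : SimpleGraph V} (hG : F.Free G) : F.Free (G.map e) := by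
  rintro ⟨φ⟩
  have h1 : ∀ a, ∃ v, e v = φ a := by
    intro a
    obtain ⟨b, hb⟩ := hF a
    have h2 : (G.map e).Adj (φ a) (φ b) := φ.toHom.map_adj hb
    rw [SimpleGraph.map_adj] at h2
    obtain ⟨u, v, _, hu, _⟩ := h2
    exact ⟨u, hu⟩
  choose g hg using h1
  apply hG
  refine ⟨⟨⟨g, ?_⟩, ?_⟩⟩
  · intro a b hab
    have h2 : (G.map e).Adj (φ a) (φ b) := φ.toHom.map_adj hab
    rw [← hg a, ← hg b, SimpleGraph.map_adj_apply] at h2
    exact h2
  · intro a b hab
    have h1 : g a = g b := hab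
    have h3 : φ a = φ b := by rw [← hg a, ← hg b, h1]
    exact φ.injective h3

/-- the graphs without `F i` for all `i` -/
def Fr {ι : Type} {A : ι → Type} (F : ∀ i, SimpleGraph (A i)) (V : Type) (G : SimpleGraph V) : Prop :=
  ∀ i, (F i).Free G

theorem equiv {ι : Type} {A : ι → Type} (F : ∀ i, SimpleGraph (A i))
    (hF : ∀ i a, ∃ b, (F i).Adj a b)
    (α : ℝ) (hα : 0 < α) (C₀ : ℝ)
    (hub : ∀ (V : Type) [Finite V] (G : SimpleGraph V), Fr F V G →
      (G.edgeSet.ncard : ℝ) ≤ C₀ * (Nat.card V : ℝ) ^ (1 + α))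
    (hreg : ∀ ε η : ℝ, 0 < ε → 0 < η → ∃ C : ℝ, 0 < C ∧ ∃ n₀ : ℕ, ∀ (V : Type) [Finite V]
      (G : SimpleGraph V), Fr F V G → n₀ ≤ Nat.card V →
      ε * (Nat.card V : ℝ) ^ (1 + α) ≤ G.edgeSet.ncard →
      ∃ K : Set V, (1 - η) * G.edgeSet.ncard ≤ (G.induce K).edgeSet.ncard ∧
        ∀ x ∈ K, ({w : V | w ∈ K ∧ G.Adj x w}.ncard : ℝ) ≤ C * (Nat.card V : ℝ) ^ α)
    (hball : ∀ C : ℝ, 0 < C → ∃ (r : ℕ) (c : ℝ), 0 < c ∧ ∃ n₀ : ℕ, ∀ (W : Type) [Finite W]
      (H : SimpleGraph W), Fr F W H → ∀ n : ℕ, n₀ ≤ n →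
      (∀ x, (n : ℝ) ^ α ≤ C * (H.neighborSet x).ncard) → ∀ x, c * n ≤ (ball H x r).ncard) :
    (∃ c : ℝ, 0 < c ∧ ∃ N : ℕ, ∀ n : ℕ, N ≤ n → ∃ G : SimpleGraph (Fin n), Fr F (Fin n) G ∧
      c * (n : ℝ) ^ (1 + α) ≤ G.edgeSet.ncard) ↔
    ∃ C : ℝ, 0 < C ∧ ∃ N : ℕ, ∀ n : ℕ, N ≤ n → ∃ (W : Type) (_ : Finite W) (H : SimpleGraph W),
      Fr F W H ∧ H.Colorable 2 ∧ Nat.card W ≤ n ∧ Exp H n α C := by
  classical
  constructor
  · rintro ⟨c, hc, N, hN⟩
    obtain ⟨C, hC, n₀, hmain⟩ := main (fun V G => Fr F V G ∧ G.Colorable 2) (by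
      intro V G K hG
      refine ⟨fun i hi => hG.1 i (hi.trans ⟨(SimpleGraph.Embedding.induce _).toCopy⟩), ?_⟩
      obtain ⟨f⟩ := hG.2
      exact ⟨f.comp (SimpleGraph.Embedding.induce _).toHom⟩) α hα C₀
      (fun V _ G hG => hub V G hG.1)
      (fun ε η hε hη => by
        obtain ⟨C, hC, n₀, h⟩ := hreg ε η hε hη
        exact ⟨C, hC, n₀, fun V _ G hG => h V G hG.1⟩)
      (fun C hC => by
        obtain ⟨r, c, hc, n₀, h⟩ := hball C hC
        exact ⟨r, c, hc, n₀, fun W _ H hH => h W H hH.1⟩)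
      (c / 2) (1 / 2) (by positivity) (by norm_num)
    refine ⟨C, hC, max N (max n₀ 1), ?_⟩
    intro n hn
    have hnN : N ≤ n := (le_max_left _ _).trans hn
    have hn0 : n₀ ≤ n := (le_max_left _ _).trans ((le_max_right _ _).trans hn)
    have hn1 : 1 ≤ n := (le_max_right _ _).trans ((le_max_right _ _).trans hn)
    obtain ⟨G, hG, he⟩ := hN n hnN
    obtain ⟨B, hBG, hB2, hBe⟩ := maxcut G
    have hBe' : (G.edgeSet.ncard : ℝ) ≤ 2 * B.edgeSet.ncard := by exact_mod_cast hBe
    have hBF : Fr F (Fin n) B := fun i hi => hG i (hi.trans ⟨SimpleGraph.Copy.ofLE _ _ hBG⟩)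
    obtain ⟨m, U, hm, hdis, hsum, hexp⟩ := hmain (Fin n) B ⟨hBF, hB2⟩ (by
      rw [Nat.card_eq_fintype_card, Fintype.card_fin]; exact hn0) (by
      rw [Nat.card_eq_fintype_card, Fintype.card_fin]
      linarith)
    rw [Nat.card_eq_fintype_card, Fintype.card_fin] at hexp
    have hm0 : m ≠ 0 := by
      rintro rfl
      simp only [univ_eq_empty, sum_empty] at hsum
      have h1 : (0 : ℝ) < c * (n : ℝ) ^ (1 + α) := by
        have : (0 : ℝ) < n := by exact_mod_cast hn1
        positivity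
      linarith
    obtain ⟨i⟩ : Nonempty (Fin m) := ⟨⟨0, Nat.pos_of_ne_zero hm0⟩⟩
    refine ⟨U i, inferInstance, B.induce (U i), ?_, ?_, ?_, hexp i⟩
    · exact fun j hj => hBF j (hj.trans ⟨(SimpleGraph.Embedding.induce _).toCopy⟩)
    · obtain ⟨f⟩ := hB2
      exact ⟨f.comp (SimpleGraph.Embedding.induce _).toHom⟩
    · have h1 := Nat.card_le_card_of_injective _ (Subtype.val_injective (p := fun x => x ∈ U i))
      rw [Nat.card_eq_fintype_card (α := Fin n), Fintype.card_fin] at h1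
      exact h1
  · rintro ⟨C, hC, N, hN⟩
    refine ⟨1 / (2 * C ^ 2), by positivity, max N 1, ?_⟩
    intro n hn
    have hnN : N ≤ n := (le_max_left _ _).trans hn
    have hn1 : 1 ≤ n := (le_max_right _ _).trans hn
    obtain ⟨W, _, H, hH, _, hWn, hexp⟩ := hN n hnN
    have := Fintype.ofFinite W
    obtain ⟨e⟩ : Nonempty (W ↪ Fin n) := by
      rw [Function.Embedding.nonempty_iff_card_le, Fintype.card_fin, ← Nat.card_eq_fintype_card]
      exact hWn
    refine ⟨H.map e, fun i => free_map (hF i) e (hH i), ?_⟩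
    have h1 : (H.map e).edgeSet.ncard = H.edgeSet.ncard := by
      rw [SimpleGraph.edgeSet_map]
      exact Set.ncard_image_of_injective _ e.sym2Map.injective
    rw [h1]
    have hn0 : (0 : ℝ) < n := by exact_mod_cast hn1
    have h2 : (2 * H.edgeSet.ncard : ℕ) = ∑ x : W, (H.neighborSet x).ncard := by
      rw [← darts, card_filter, Fintype.sum_prod_type]
      refine sum_congr rfl fun x _ => ?_
      rw [← card_filter, ← Set.ncard_coe_finset]
      congr 1
      ext y
      simp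
    have h3 : (Nat.card W : ℝ) * ((n : ℝ) ^ α / C) ≤ 2 * H.edgeSet.ncard := by
      have h4 : (2 * (H.edgeSet.ncard : ℝ)) = ∑ x : W, ((H.neighborSet x).ncard : ℝ) := by
        exact_mod_cast h2
      rw [h4]
      have h5 : ∑ x : W, ((n : ℝ) ^ α / C) ≤ ∑ x : W, ((H.neighborSet x).ncard : ℝ) := by
        refine sum_le_sum fun x _ => ?_
        rw [div_le_iff₀ hC]
        have := hexp.deg_ge x
        linarith
      rw [sum_const, nsmul_eq_mul, card_univ, ← Nat.card_eq_fintype_card] at h5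
      exact h5
    have h4 : (n : ℝ) / C ≤ Nat.card W := by
      rw [div_le_iff₀ hC]
      have := hexp.order
      linarith
    have h5 : (n : ℝ) / C * ((n : ℝ) ^ α / C) ≤ 2 * H.edgeSet.ncard :=
      (mul_le_mul_of_nonneg_right h4 (by positivity)).trans h3
    have h6 : 1 / (2 * C ^ 2) * (n : ℝ) ^ (1 + α) = (n : ℝ) / C * ((n : ℝ) ^ α / C) / 2 := by
      rw [Real.rpow_add hn0, Real.rpow_one]
      field_simp
    rw [h6]
    linarith

end Pool.Agent.Q248.EX
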