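import Pool.Agent.Q248.EX.Ext
import Pool.Agent.Q268.BG.Real

/-!
# The hypotheses for graphs without `C_{2k}`
-/

set_option autoImplicit false

namespace Pool.Agent.Q248.EX

open Finset SimpleGraph Pool.Agent.Q268.BG

theorem even_ub (k : ℕ) (hk : 1 ≤ k) (V : Type) [Finite V] (G : SimpleGraph V)
    (hG : (cycleGraph (2 * k)).Free G) :
    (G.edgeSet.ncard : ℝ) ≤ ((C4 k : ℝ) + 1) * (Nat.card V : ℝ) ^ (1 + 1 / (k : ℝ)) := by
  have hk0 : (0 : ℝ) < k := by exact_mod_cast hk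
  obtain ⟨c, hc⟩ : ∃ c : ℝ, c = C4 k := ⟨_, rfl⟩
  have hc0 : 0 ≤ c := by rw [hc]; positivity
  obtain ⟨N, hN⟩ : ∃ N, N = Nat.card V := ⟨_, rfl⟩
  obtain ⟨D, hD⟩ : ∃ D : ℕ, D = ⌊c * (N : ℝ) ^ (1 / (k : ℝ))⌋₊ + 1 := ⟨_, rfl⟩
  have hD1 : c * (N : ℝ) ^ (1 / (k : ℝ)) < D := by
    rw [hD]; push_cast; exact Nat.lt_floor_add_one _
  have hD2 : (D : ℝ) ≤ c * (N : ℝ) ^ (1 / (k : ℝ)) + 1 := by
    rw [hD]; push_cast
    have := Nat.floor_le (show 0 ≤ c * (N : ℝ) ^ (1 / (k : ℝ)) by positivity)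
    linarith
  obtain ⟨K, h1, _, _, h4⟩ := main_nat k hk V G hG D (by omega)
  have hK : IsEmpty K := by
    refine ⟨fun x => ?_⟩
    have h5 := (h4 x 0 (Nat.zero_le _)).2
    rw [Pool.Agent.Q268.BG.ball_zero, one_mul, Nat.sub_zero, ← hN] at h5
    have h6 : (D : ℝ) ^ k ≤ c ^ k * N := by rw [hc]; exact_mod_cast h5
    have h7 : (c * (N : ℝ) ^ (1 / (k : ℝ))) ^ k = c ^ k * N := by
      rw [mul_pow, ← Real.rpow_natCast ((N : ℝ) ^ (1 / (k : ℝ))), ← Real.rpow_mul (by positivity),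
        one_div_mul_cancel hk0.ne', Real.rpow_one]
    have h8 := pow_lt_pow_left₀ hD1 (by positivity) (show k ≠ 0 by omega)
    linarith
  have h5 : (G.induce K).edgeSet.ncard = 0 := by
    have : IsEmpty (Sym2 K) := inferInstance
    rw [Set.eq_empty_of_isEmpty (G.induce K).edgeSet, Set.ncard_empty]
  rw [h5, zero_add, ← hN] at h1
  have h6 : (G.edgeSet.ncard : ℝ) ≤ D * N := by exact_mod_cast h1
  rcases Nat.eq_zero_or_pos N with h0 | h0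
  · rw [h0] at h6
    rw [← hN, h0]
    have : (0 : ℝ) ≤ (c + 1) * ((0 : ℕ) : ℝ) ^ (1 + 1 / (k : ℝ)) := by positivity
    rw [← hc]
    simp only [Nat.cast_zero, mul_zero] at h6 this ⊢
    linarith
  · rw [← hN, ← hc]
    have hN1 : (1 : ℝ) ≤ N := by exact_mod_cast h0
    have hN0 : (0 : ℝ) < N := by linarith
    rw [Real.rpow_add hN0, Real.rpow_one]
    have h7 : (1 : ℝ) ≤ (N : ℝ) ^ (1 / (k : ℝ)) := Real.one_le_rpow hN1 (by positivity)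
    calc (G.edgeSet.ncard : ℝ) ≤ D * N := h6
      _ ≤ (c * (N : ℝ) ^ (1 / (k : ℝ)) + 1) * N := mul_le_mul_of_nonneg_right hD2 hN0.le
      _ ≤ (c * (N : ℝ) ^ (1 / (k : ℝ)) + (N : ℝ) ^ (1 / (k : ℝ))) * N :=
        mul_le_mul_of_nonneg_right (by linarith) hN0.le
      _ = _ := by ring

theorem even_reg (k : ℕ) (hk : 1 ≤ k) (ε η : ℝ) (hε : 0 < ε) (hη : 0 < η) :
    ∃ C : ℝ, 0 < C ∧ ∃ n₀ : ℕ, ∀ (V : Type) [Finite V]
      (G : SimpleGraph V), (cycleGraph (2 * k)).Free G → n₀ ≤ Nat.card V →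
      ε * (Nat.card V : ℝ) ^ (1 + 1 / (k : ℝ)) ≤ G.edgeSet.ncard →
      ∃ K : Set V, (1 - η) * G.edgeSet.ncard ≤ (G.induce K).edgeSet.ncard ∧
        ∀ x ∈ K, ({w : V | w ∈ K ∧ G.Adj x w}.ncard : ℝ) ≤
          C * (Nat.card V : ℝ) ^ (1 / (k : ℝ)) := by
  obtain ⟨C, hC, n₀, h⟩ := main_real k hk ε η hε hη
  refine ⟨C, hC, n₀, fun V _ G hG hn he => ?_⟩
  obtain ⟨K, h1, _, h3, _⟩ := h V G hG hn he
  exact ⟨K, h1, fun x _ => h3 x⟩

theorem even_ball (k : ℕ) (hk : 1 ≤ k) (C : ℝ) (hC : 0 < C) :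
    ∃ (r : ℕ) (c : ℝ), 0 < c ∧ ∃ n₀ : ℕ, ∀ (W : Type) [Finite W]
      (H : SimpleGraph W), (cycleGraph (2 * k)).Free H → ∀ n : ℕ, n₀ ≤ n →
      (∀ x, (n : ℝ) ^ (1 / (k : ℝ)) ≤ C * (H.neighborSet x).ncard) →
      ∀ x, c * n ≤ (ball H x r).ncard := by
  have hk0 : (0 : ℝ) < k := by exact_mod_cast hk
  have hC4 : 0 < C4 k := by unfold C4; omega
  have hC4' : (0 : ℝ) < C4 k := by exact_mod_cast hC4
  refine ⟨k, 1 / (C ^ k * (C4 k : ℝ) ^ (k - 1)), by positivity, 1, ?_⟩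
  intro W _ H hH n hn hdeg x
  have hn0 : (0 : ℝ) < n := by exact_mod_cast hn
  obtain ⟨D, hD⟩ : ∃ D : ℕ, D = ⌈(n : ℝ) ^ (1 / (k : ℝ)) / C⌉₊ := ⟨_, rfl⟩
  have hDx : ∀ v, D ≤ (H.neighborSet v).ncard := by
    intro v
    rw [hD, Nat.ceil_le, div_le_iff₀ hC, mul_comm]
    exact hdeg v
  have hDge : (n : ℝ) ^ (1 / (k : ℝ)) / C ≤ D := by rw [hD]; exact Nat.le_ceil _
  have hD0 : 1 ≤ D := by
    have : (0 : ℝ) < D := lt_of_lt_of_le (by positivity) hDge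
    exact_mod_cast this
  have h1 := g1 H k hH x D (fun v _ => hDx v) (hD0.trans (hDx x)) 1 le_rfl (k - 1) (by omega)
  have h2 := ball_one H x
  have h3 : D ^ k ≤ C4 k ^ (k - 1) * (nball H x k).ncard := by
    rw [show 1 + (k - 1) = k by omega] at h1
    refine le_trans ?_ h1
    have hk' : k = k - 1 + 1 := by omega
    calc D ^ k = D * D ^ (k - 1) := by
          conv_lhs => rw [hk']
          ring
      _ ≤ _ := Nat.mul_le_mul_right _ (by have := hDx x; omega)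
  have h4 : (nball H x k).ncard ≤ (ball H x k).ncard := by
    apply Set.ncard_le_ncard _ (Set.toFinite _)
    intro w hw
    obtain ⟨h5, h6⟩ := reach hw
    obtain ⟨p, hp⟩ := h5.exists_walk_length_eq_dist
    exact ⟨p, by omega⟩
  have h5 : (D : ℝ) ^ k ≤ (C4 k : ℝ) ^ (k - 1) * (ball H x k).ncard := by
    exact_mod_cast h3.trans (Nat.mul_le_mul_left _ h4)
  have h6 : ((n : ℝ) ^ (1 / (k : ℝ)) / C) ^ k ≤ (D : ℝ) ^ k :=
    pow_le_pow_left₀ (by positivity) hDge k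
  rw [div_pow, ← Real.rpow_natCast ((n : ℝ) ^ (1 / (k : ℝ))), ← Real.rpow_mul hn0.le,
    one_div_mul_cancel hk0.ne', Real.rpow_one] at h6
  rw [one_div, inv_mul_le_iff₀ (by positivity)]
  rw [div_le_iff₀ (by positivity)] at h6
  calc (n : ℝ) ≤ (D : ℝ) ^ k * C ^ k := h6
    _ ≤ ((C4 k : ℝ) ^ (k - 1) * (ball H x k).ncard) * C ^ k :=
      mul_le_mul_of_nonneg_right h5 (by positivity)
    _ = _ := by ring

theorem cyc_ne (m : ℕ) (hm : 3 ≤ m) : ∀ a, ∃ b, (cycleGraph m).Adj a b := by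
  obtain ⟨j, rfl⟩ : ∃ j, m = j + 1 + 1 + 1 := ⟨m - 3, by omega⟩
  intro a
  refine ⟨a + 1, ?_⟩
  rw [cycleGraph_adj]
  right
  simp

theorem cyc_bot (m : ℕ) (hm : 3 ≤ m) : cycleGraph m ≠ ⊥ := by
  intro h
  obtain ⟨b, hb⟩ := cyc_ne m hm ⟨0, by omega⟩
  rw [h] at hb
  exact hb

end Pool.Agent.Q248.EX
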