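import Pool.Agent.Q248.EX.Equiv

/-!
# Turán numbers and graphs
-/

set_option autoImplicit false

namespace Pool.Agent.Q248.EX

open Finset SimpleGraph

theorem exists_ext {A : Type} {F : SimpleGraph A} (hF : F ≠ ⊥) (n : ℕ) :
    ∃ G : SimpleGraph (Fin n), F.Free G ∧ G.edgeSet.ncard = extremalNumber n F := by
  classical
  obtain ⟨G, hG, h⟩ := exists_isExtremal_free (V := Fin n) hF
  refine ⟨G, h.1, ?_⟩
  have h1 := card_edgeFinset_of_isExtremal_free h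
  rw [Fintype.card_fin] at h1
  rw [← h1]
  exact Set.ncard_eq_toFinset_card' _

theorem le_ext {A : Type} {F : SimpleGraph A} {n : ℕ} (G : SimpleGraph (Fin n)) (hG : F.Free G) :
    G.edgeSet.ncard ≤ extremalNumber n F := by
  classical
  have h1 := card_edgeFinset_le_extremalNumber hG
  rw [Fintype.card_fin] at h1
  refine le_trans (le_of_eq ?_) h1
  exact Set.ncard_eq_toFinset_card' _

/-- The bipartite expander form of the lower bound for one forbidden graph. -/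
theorem equiv_ext {A : Type} (F : SimpleGraph A) (hF0 : F ≠ ⊥) (hF : ∀ a, ∃ b, F.Adj a b)
    (α : ℝ) (hα : 0 < α) (C₀ : ℝ)
    (hub : ∀ (V : Type) [Finite V] (G : SimpleGraph V), F.Free G →
      (G.edgeSet.ncard : ℝ) ≤ C₀ * (Nat.card V : ℝ) ^ (1 + α))
    (hreg : ∀ ε η : ℝ, 0 < ε → 0 < η → ∃ C : ℝ, 0 < C ∧ ∃ n₀ : ℕ, ∀ (V : Type) [Finite V]
      (G : SimpleGraph V), F.Free G → n₀ ≤ Nat.card V →
      ε * (Nat.card V : ℝ) ^ (1 + α) ≤ G.edgeSet.ncard →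
      ∃ K : Set V, (1 - η) * G.edgeSet.ncard ≤ (G.induce K).edgeSet.ncard ∧
        ∀ x ∈ K, ({w : V | w ∈ K ∧ G.Adj x w}.ncard : ℝ) ≤ C * (Nat.card V : ℝ) ^ α)
    (hball : ∀ C : ℝ, 0 < C → ∃ (r : ℕ) (c : ℝ), 0 < c ∧ ∃ n₀ : ℕ, ∀ (W : Type) [Finite W]
      (H : SimpleGraph W), F.Free H → ∀ n : ℕ, n₀ ≤ n →
      (∀ x, (n : ℝ) ^ α ≤ C * (H.neighborSet x).ncard) → ∀ x, c * n ≤ (ball H x r).ncard) :
    (∃ c : ℝ, 0 < c ∧ ∃ N : ℕ, ∀ n : ℕ, N ≤ n →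
      c * (n : ℝ) ^ (1 + α) ≤ (extremalNumber n F : ℝ)) ↔
    ∃ C : ℝ, 0 < C ∧ ∃ N : ℕ, ∀ n : ℕ, N ≤ n → ∃ (W : Type) (_ : Finite W) (H : SimpleGraph W),
      F.Free H ∧ H.Colorable 2 ∧ Nat.card W ≤ n ∧ Exp H n α C := by
  have e : ∀ (V : Type) (G : SimpleGraph V), Fr (fun _ : Unit => F) V G ↔ F.Free G :=
    fun V G => ⟨fun h => h (), fun h _ => h⟩
  have h := equiv (fun _ : Unit => F) (fun _ => hF) α hα C₀ (by simpa only [e] using hub)
    (by simpa only [e] using hreg) (by simpa only [e] using hball)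
  simp only [e] at h
  rw [← h]
  constructor
  · rintro ⟨c, hc, N, hN⟩
    refine ⟨c, hc, N, fun n hn => ?_⟩
    obtain ⟨G, hG, hGe⟩ := exists_ext hF0 n
    exact ⟨G, hG, by rw [hGe]; exact hN n hn⟩
  · rintro ⟨c, hc, N, hN⟩
    refine ⟨c, hc, N, fun n hn => ?_⟩
    obtain ⟨G, hG, hGe⟩ := hN n hn
    exact hGe.trans (by exact_mod_cast le_ext G hG)

end Pool.Agent.Q248.EX
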