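import Pool.Agent.Q248.EX.Cheeger
import Pool.Agent.Q248.EX.Cls

/-!
# The spectral gap of the expanders
-/

set_option autoImplicit false

namespace Pool.Agent.Q248.EX

open Finset SimpleGraph

/-- `∑ (f x - f y) ^ 2` over all pairs `(x, y)` of adjacent vertices. -/
noncomputable def energy {W : Type} (H : SimpleGraph W) (f : W → ℝ) : ℝ :=
  ∑ᶠ p ∈ {p : W × W | H.Adj p.1 p.2}, (f p.1 - f p.2) ^ 2

theorem energy_eq {W : Type} [Fintype W] (H : SimpleGraph W) [DecidableRel H.Adj] (f : W → ℝ) :
    energy H f = sAdj H (fun x y => (f x - f y) ^ 2) := by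
  unfold energy sAdj
  rw [finsum_mem_def, finsum_eq_sum_of_fintype, Fintype.sum_prod_type]
  refine sum_congr rfl fun x _ => sum_congr rfl fun y _ => ?_
  by_cases h : H.Adj x y
  · rw [if_pos h]
    exact Set.indicator_of_mem (show (x, y) ∈ {p : W × W | H.Adj p.1 p.2} from h) _
  · rw [if_neg h]
    exact Set.indicator_of_notMem (show (x, y) ∉ {p : W × W | H.Adj p.1 p.2} from h) _

/-- The spectral gap. -/
theorem Exp.gap {W : Type} [Finite W] {H : SimpleGraph W} {n α C : ℝ} (h : Exp H n α C)
    (hn : 0 < n) (hC : 0 < C) (f : W → ℝ) (hf : ∑ᶠ x, f x = 0) :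
    n ^ α * ∑ᶠ x, f x ^ 2 ≤ C ^ 3 * energy H f := by
  classical
  have := Fintype.ofFinite W
  have hnα : 0 < n ^ α := by positivity
  rw [finsum_eq_sum_of_fintype] at hf ⊢
  rw [energy_eq]
  have h1 := cheeger H (n ^ α / C) (C * n ^ α) (by positivity) (by positivity) (by
    intro S hS
    have h2 := h.exp (S : Set W)
    have h3 : (S : Set W).ncard = #S := Set.ncard_coe_finset S
    have h4 : ((S : Set W)ᶜ).ncard = Fintype.card W - #S := by
      rw [← coe_compl, Set.ncard_coe_finset, card_compl]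
    have h5 : bd H (S : Set W) = bdf H S := by
      unfold bd bdf
      rw [← Set.ncard_coe_finset]
      congr 1
      ext p
      simp
    rw [h3, h4, h5] at h2
    have h6 : (#S : ℝ) ≤ ((Fintype.card W - #S : ℕ) : ℝ) := by exact_mod_cast (by omega)
    rw [min_eq_left h6] at h2
    rw [div_mul_eq_mul_div, div_le_iff₀ hC]
    linarith) (by
    intro x
    refine le_trans (le_of_eq ?_) (h.deg_le x)
    rw [← Set.ncard_coe_finset]
    congr 2
    ext y
    simp) f hf
  have h2 : (n ^ α / C) ^ 2 / (C * n ^ α) = n ^ α / C ^ 3 := by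
    field_simp
  rw [h2, div_mul_eq_mul_div, div_le_iff₀ (by positivity)] at h1
  linarith

end Pool.Agent.Q248.EX
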