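import Pool.Agent.Q248.EX.Even
import Pool.Agent.Q248.EX.Gap
import Pool.Agent.TH815.GR6

/-!
# Girth
-/

set_option autoImplicit false

namespace Pool.Agent.Q248.EX

open Finset SimpleGraph

/-- the lengths of the forbidden cycles -/
abbrev Len (k : ℕ) : Type := {j : ℕ // 3 ≤ j ∧ j ≤ 2 * k}

/-- the forbidden cycles -/
def cyc (k : ℕ) (j : Len k) : SimpleGraph (Fin j.1) := cycleGraph j.1

theorem girth_iff (k : ℕ) {V : Type} (G : SimpleGraph V) :
    ((2 * k : ℕ) : ℕ∞) < G.egirth ↔ Fr (cyc k) V G := by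
  rw [Pool.TH815.GR.egirth_iff]
  constructor
  · rintro h ⟨j, hj1, hj2⟩ hi
    have h1 : cycleGraph j ⊑ G := hi
    rw [cycleGraph_isContained_iff (by omega)] at h1
    obtain ⟨v, p, hp, hl⟩ := h1
    have := h v p hp
    omega
  · intro h v p hp
    by_contra hcon
    push Not at hcon
    have h3 := hp.three_le_length
    refine h ⟨p.length, h3, hcon⟩ ?_
    show cycleGraph p.length ⊑ G
    rw [cycleGraph_isContained_iff (by omega)]
    exact ⟨v, p, hp, rfl⟩

theorem fr_even (k : ℕ) (hk : 2 ≤ k) {V : Type} {G : SimpleGraph V} (h : Fr (cyc k) V G) :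
    (cycleGraph (2 * k)).Free G := h ⟨2 * k, by omega, le_rfl⟩

theorem girth_equiv (k : ℕ) (hk : 2 ≤ k) :
    Pool.TH815.GR.GirthConj k ↔
    ∃ C : ℝ, 0 < C ∧ ∃ N : ℕ, ∀ n : ℕ, N ≤ n → ∃ (W : Type) (_ : Finite W) (H : SimpleGraph W),
      Fr (cyc k) W H ∧ H.Colorable 2 ∧ Nat.card W ≤ n ∧ Exp H n (1 / (k : ℝ)) C := by
  have hk0 : (0 : ℝ) < k := by exact_mod_cast (by omega : 0 < k)
  rw [← equiv (cyc k) (fun j => cyc_ne j.1 j.2.1) (1 / (k : ℝ)) (by positivity) _
    (fun V _ G hG => even_ub k (by omega) V G (fr_even k hk hG))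
    (fun ε η hε hη => by
      obtain ⟨C, hC, n₀, h⟩ := even_reg k (by omega) ε η hε hη
      exact ⟨C, hC, n₀, fun V _ G hG => h V G (fr_even k hk hG)⟩)
    (fun C hC => by
      obtain ⟨r, c, hc, n₀, h⟩ := even_ball k (by omega) C hC
      exact ⟨r, c, hc, n₀, fun W _ H hH => h W H (fr_even k hk hH)⟩)]
  unfold Pool.TH815.GR.GirthConj
  simp only [girth_iff, ge_iff_le]

/-- The spectral form: for every degree `d`. -/
def SpecForm (k : ℕ) : Prop :=
  ∃ C : ℝ, ∀ d : ℕ, 1 ≤ d → ∃ (m : ℕ) (H : SimpleGraph (Fin m)), 0 < m ∧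
    (m : ℝ) ≤ C * (d : ℝ) ^ k ∧ ((2 * k : ℕ) : ℕ∞) < H.egirth ∧ H.Colorable 2 ∧
    (∀ x, (d : ℝ) ≤ (H.neighborSet x).ncard ∧ ((H.neighborSet x).ncard : ℝ) ≤ C * d) ∧
    (∀ S : Set (Fin m), (d : ℝ) * min (S.ncard : ℝ) (Sᶜ.ncard : ℝ) ≤ C * bd H S) ∧
    (∀ f : Fin m → ℝ, ∑ x, f x = 0 → (d : ℝ) * ∑ x, f x ^ 2 ≤ C * energy H f) ∧
    ∀ x y, ∃ p : H.Walk x y, (p.length : ℝ) ≤ C

theorem spec_iff (k : ℕ) (hk : 2 ≤ k) : Pool.TH815.GR.GirthConj k ↔ SpecForm k := by
  classical
  have hk0 : (0 : ℝ) < k := by exact_mod_cast (by omega : 0 < k)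
  constructor
  · intro h
    rw [girth_equiv k hk] at h
    obtain ⟨C, hC, N, hN⟩ := h
    obtain ⟨T, hT⟩ := exists_nat_ge (C + N + 1)
    have hNr : (0 : ℝ) ≤ N := Nat.cast_nonneg N
    have hT1 : (1 : ℝ) ≤ T := by linarith
    have hTC : C ≤ T := by linarith
    have hTN : N ≤ T := by
      have : (N : ℝ) ≤ T := by linarith
      exact_mod_cast this
    have hT0 : (0 : ℝ) < T := by linarith
    obtain ⟨C', hC'⟩ : ∃ C' : ℝ, C' = max (max ((T : ℝ) ^ k) (C * T)) (max C (C ^ 3)) := ⟨_, rfl⟩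
    have hC1 : (T : ℝ) ^ k ≤ C' := hC' ▸ (le_max_left _ _).trans (le_max_left _ _)
    have hC2 : C * T ≤ C' := hC' ▸ (le_max_right _ _).trans (le_max_left _ _)
    have hC3 : C ≤ C' := hC' ▸ (le_max_left _ _).trans (le_max_right _ _)
    have hC4 : C ^ 3 ≤ C' := hC' ▸ (le_max_right _ _).trans (le_max_right _ _)
    refine ⟨C', fun d hd => ?_⟩
    have hd1 : (1 : ℝ) ≤ d := by exact_mod_cast hd
    have hd0 : (0 : ℝ) < d := by linarith
    obtain ⟨n, hn⟩ : ∃ n : ℕ, n = (T * d) ^ k := ⟨_, rfl⟩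
    have hnr : (n : ℝ) ^ (1 / (k : ℝ)) = T * d := by
      rw [hn]
      push_cast
      rw [← Real.rpow_natCast, ← Real.rpow_mul (by positivity), mul_one_div_cancel hk0.ne',
        Real.rpow_one]
    have hnN : N ≤ n := by
      rw [hn]
      calc N ≤ T * 1 := by omega
        _ ≤ T * d := Nat.mul_le_mul_left _ hd
        _ ≤ _ := Nat.le_self_pow (by omega) _
    obtain ⟨W, _, H, hH, hcol, hWn, hexp⟩ := hN n hnN
    have := Fintype.ofFinite W
    have hn0 : (0 : ℝ) < n := by
      rw [hn]; push_cast; positivity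
    obtain ⟨m, hm⟩ : ∃ m, m = Nat.card W := ⟨_, rfl⟩
    obtain ⟨e⟩ : Nonempty (W ≃ Fin m) := by
      rw [hm, Nat.card_eq_fintype_card]
      exact ⟨Fintype.equivFin W⟩
    obtain ⟨H', hH'⟩ : ∃ H' : SimpleGraph (Fin m), H' = H.comap e.symm := ⟨_, rfl⟩
    have hadj : ∀ x y, H'.Adj x y ↔ H.Adj (e.symm x) (e.symm y) := by
      intro x y; rw [hH']; rfl
    have hm0 : 0 < m := by
      rw [Nat.pos_iff_ne_zero]
      intro h0
      have h1 := hexp.order
      rw [← hm, h0, Nat.cast_zero, mul_zero] at h1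
      linarith
    have hdeg : ∀ x, (H'.neighborSet x).ncard = (H.neighborSet (e.symm x)).ncard := by
      intro x
      rw [← Set.ncard_image_of_injective (H'.neighborSet x) e.symm.injective]
      congr 1
      ext y
      simp only [Set.mem_image, mem_neighborSet]
      constructor
      · rintro ⟨z, hz, rfl⟩
        exact (hadj x z).1 hz
      · intro hy
        exact ⟨e y, by rw [hadj]; simpa using hy, by simp⟩
    have hemb : H' ↪g H := ⟨e.symm.toEmbedding, fun {x y} => (hadj x y).symm⟩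
    have hbd : ∀ S : Set (Fin m), bd H' S = bd H (e ⁻¹' S) := by
      intro S
      unfold bd
      have hinj : Function.Injective (fun p : Fin m × Fin m => (e.symm p.1, e.symm p.2)) := by
        rintro ⟨x, y⟩ ⟨x', y'⟩ hxy
        obtain ⟨h1, h2⟩ := Prod.mk.inj hxy
        exact Prod.ext (e.symm.injective h1) (e.symm.injective h2)
      rw [← Set.ncard_image_of_injective _ hinj]
      congr 1
      ext ⟨a, b⟩
      simp only [Set.mem_image, Prod.mk.injEq, Set.mem_preimage, Set.mem_ofPred_eq, Prod.exists]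
      constructor
      · rintro ⟨x, y, ⟨h1, h2, h3⟩, rfl, rfl⟩
        refine ⟨by simpa using h1, by simpa using h2, (hadj _ _).1 h3⟩
      · rintro ⟨h1, h2, h3⟩
        exact ⟨e a, e b, ⟨h1, h2, by rw [hadj]; simpa using h3⟩, by simp, by simp⟩
    have hen : ∀ f : Fin m → ℝ, energy H' f = energy H (fun w => f (e w)) := by
      intro f
      rw [energy_eq, energy_eq]
      unfold sAdj
      rw [← Equiv.sum_comp e]
      refine sum_congr rfl fun x _ => ?_
      rw [← Equiv.sum_comp e]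
      refine sum_congr rfl fun y _ => ?_
      have : H'.Adj (e x) (e y) ↔ H.Adj x y := by rw [hadj]; simp
      simp only [this]
    refine ⟨m, H', hm0, ?_, ?_, ?_, ?_, ?_, ?_, ?_⟩
    · calc (m : ℝ) ≤ n := by rw [hm]; exact_mod_cast hWn
        _ = (T : ℝ) ^ k * (d : ℝ) ^ k := by rw [hn]; push_cast; rw [mul_pow]
        _ ≤ _ := mul_le_mul_of_nonneg_right hC1 (by positivity)
    · rw [girth_iff]
      exact fun j hj => hH j (hj.trans ⟨hemb.toCopy⟩)
    · obtain ⟨f⟩ := hcol
      exact ⟨f.comp hemb.toHom⟩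
    · intro x
      rw [hdeg]
      have h1 := hexp.deg_ge (e.symm x)
      have h2 := hexp.deg_le (e.symm x)
      rw [hnr] at h1 h2
      refine ⟨?_, ?_⟩
      · have h3 : C * d ≤ C * ((H.neighborSet (e.symm x)).ncard : ℝ) :=
          (mul_le_mul_of_nonneg_right hTC hd0.le).trans h1
        exact le_of_mul_le_mul_left h3 hC
      · refine h2.trans ?_
        rw [← mul_assoc]
        exact mul_le_mul_of_nonneg_right hC2 hd0.le
    · intro S
      rw [hbd]
      have h1 := hexp.exp (e ⁻¹' S)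
      have h2 : (e ⁻¹' S).ncard = S.ncard := by
        rw [← Set.ncard_image_of_injective _ e.injective, Set.image_preimage_eq _ e.surjective]
      have h3 : ((e ⁻¹' S)ᶜ).ncard = Sᶜ.ncard := by
        rw [← Set.preimage_compl, ← Set.ncard_image_of_injective _ e.injective,
          Set.image_preimage_eq _ e.surjective]
      rw [h2, h3, hnr] at h1
      have h4 : (d : ℝ) * min (S.ncard : ℝ) (Sᶜ.ncard : ℝ) ≤
          (T * d) * min (S.ncard : ℝ) (Sᶜ.ncard : ℝ) := by
        refine mul_le_mul_of_nonneg_right ?_ (by positivity)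
        nlinarith
      exact h4.trans (h1.trans (mul_le_mul_of_nonneg_right hC3 (by positivity)))
    · intro f hf
      have h1 := hexp.gap hn0 hC (fun w => f (e w)) (by
        rw [finsum_eq_sum_of_fintype, Equiv.sum_comp e]; exact hf)
      have h0 : (0 : ℝ) ≤ energy H (fun w => f (e w)) := by
        rw [energy_eq]
        unfold sAdj
        refine sum_nonneg fun x _ => sum_nonneg fun y _ => ?_
        split_ifs <;> positivity
      rw [finsum_eq_sum_of_fintype, Equiv.sum_comp e (fun x => f x ^ 2), ← hen, hnr] at h1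
      rw [← hen] at h0
      have h2 : (d : ℝ) * ∑ x, f x ^ 2 ≤ (T * d) * ∑ x, f x ^ 2 := by
        refine mul_le_mul_of_nonneg_right ?_ (sum_nonneg fun x _ => by positivity)
        nlinarith
      exact h2.trans (h1.trans (mul_le_mul_of_nonneg_right hC4 h0))
    · intro x y
      obtain ⟨p, hp⟩ := hexp.diam (e.symm x) (e.symm y)
      let hiso : H →g H' := ⟨e, fun {a b} hab => by rw [hadj]; simpa using hab⟩
      have e1 : hiso (e.symm x) = x := by
        show e (e.symm x) = x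
        simp
      have e2 : hiso (e.symm y) = y := by
        show e (e.symm y) = y
        simp
      refine ⟨(p.map hiso).copy e1 e2, ?_⟩
      rw [Walk.length_copy, Walk.length_map]
      exact hp.trans hC3
  · rintro ⟨C, hC⟩
    refine Pool.TH815.GR.girthConj_of_almostRegularForm (by omega) ⟨C, fun d hd => ?_⟩
    obtain ⟨m, H, hm, h1, h2, _, h3, _⟩ := hC d hd
    exact ⟨m, H, hm, h1, h2, h3⟩

end Pool.Agent.Q248.EX
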