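import Pool.Agent.Q248.EX.Basic

/-!
# Decomposition in expanders: real powers
-/

set_option autoImplicit false

namespace Pool.Agent.Q248.EX

open Finset SimpleGraph

/-- The decomposition for graphs with `cr G U U ≤ C₀ |U| ^ (1 + α)` for all `U`. -/
theorem decomp_real (α C₀ ε η Δ : ℝ) (hα : 0 < α) (hC₀ : 0 < C₀) (hε : 0 < ε) (hη : 0 < η)
    (hΔ : 0 < Δ) :
    ∃ C : ℝ, 1 ≤ C ∧ ∀ (V : Type) [Fintype V] [DecidableEq V] (G : SimpleGraph V)
      [DecidableRel G.Adj] (n : ℝ), 1 ≤ n → (Fintype.card V : ℝ) ≤ n →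
      (∀ U : Finset V, (cr G U U : ℝ) ≤ C₀ * (#U : ℝ) ^ (1 + α)) → ∀ W : Finset V,
      (∀ x ∈ W, (#{y ∈ W | G.Adj x y} : ℝ) ≤ Δ * n ^ α) → ε * n ^ (1 + α) ≤ cr G W W →
      ∃ P : Finset (Finset V), (#P : ℝ) ≤ C ∧ (∀ U ∈ P, ∀ U' ∈ P, U ≠ U' → Disjoint U U') ∧
        (1 - η) * (cr G W W : ℝ) ≤ ∑ U ∈ P, (cr G U U : ℝ) ∧
        ∀ U ∈ P, U ⊆ W ∧ n ≤ C * #U ∧ (∀ x ∈ U, n ^ α ≤ C * #{y ∈ U | G.Adj x y} ∧
          (#{y ∈ U | G.Adj x y} : ℝ) ≤ C * n ^ α) ∧
          ∀ S T : Finset V, Disjoint S T → S ∪ T = U →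
            n ^ α * min (#S : ℝ) (#T : ℝ) ≤ C * cr G S T := by
  obtain ⟨σ, hσ⟩ : ∃ σ : ℝ, σ = (η * ε / 2 / C₀) ^ (1 / α) := ⟨_, rfl⟩
  have hσ0 : 0 < σ := by rw [hσ]; positivity
  obtain ⟨μ, hμ⟩ : ∃ μ : ℝ, μ = min σ 1 := ⟨_, rfl⟩
  have hμ0 : 0 < μ := by rw [hμ]; exact lt_min hσ0 one_pos
  have hμσ : μ ≤ σ := hμ ▸ min_le_left _ _
  have hμ1 : μ ≤ 1 := hμ ▸ min_le_right _ _
  obtain ⟨C, hC⟩ : ∃ C : ℝ, C = max (max 1 Δ) (max (1 / μ) (8 / (η * ε * μ))) := ⟨_, rfl⟩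
  have hC1 : 1 ≤ C := hC ▸ (le_max_left _ _).trans (le_max_left _ _)
  have hCΔ : Δ ≤ C := hC ▸ (le_max_right _ _).trans (le_max_left _ _)
  have hCμ : 1 / μ ≤ C := hC ▸ (le_max_left _ _).trans (le_max_right _ _)
  have hC8 : 8 / (η * ε * μ) ≤ C := hC ▸ (le_max_right _ _).trans (le_max_right _ _)
  refine ⟨C, hC1, ?_⟩
  intro V _ _ G _ n hn hVn hub W hdeg he
  have hn0 : 0 < n := by linarith
  have hnα : 0 < n ^ α := by positivity
  obtain ⟨τ, hτ⟩ : ∃ τ : ℝ, τ = η * ε / 2 * n ^ α := ⟨_, rfl⟩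
  have hτ0 : 0 < τ := by rw [hτ]; positivity
  obtain ⟨s, hs⟩ : ∃ s : ℝ, s = σ * n := ⟨_, rfl⟩
  have hs0 : 0 < s := by rw [hs]; positivity
  have hH : ∀ U ⊆ W, U.Nonempty → τ * (#U : ℝ) ≤ cr G U U → s ≤ #U := by
    intro U _ hU h1
    have hU0 : (0 : ℝ) < #U := by exact_mod_cast hU.card_pos
    have h2 := h1.trans (hub U)
    rw [Real.rpow_add hU0, Real.rpow_one] at h2
    have h3 : τ ≤ C₀ * (#U : ℝ) ^ α := by
      refine le_of_mul_le_mul_right ?_ hU0
      calc τ * (#U : ℝ) ≤ _ := h2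
        _ = _ := by ring
    have h4 : η * ε / 2 / C₀ * n ^ α ≤ (#U : ℝ) ^ α := by
      rw [div_mul_eq_mul_div, div_le_iff₀ hC₀, ← hτ]
      linarith
    have h5 := Real.rpow_le_rpow (by positivity) h4 (show (0 : ℝ) ≤ 1 / α by positivity)
    rw [← Real.rpow_mul hU0.le, Real.mul_rpow (by positivity) hnα.le, ← hσ,
      ← Real.rpow_mul hn0.le, mul_one_div_cancel hα.ne', Real.rpow_one, Real.rpow_one] at h5
    rw [hs]
    exact h5
  obtain ⟨P, hP, hPd, hPs⟩ := decomp G W τ s hτ0 hs0 hH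
  have hWn : (#W : ℝ) ≤ n := by
    refine le_trans ?_ hVn
    exact_mod_cast card_le_univ W
  have h1C : 1 ≤ C * μ := by
    rw [div_le_iff₀ hμ0] at hCμ
    exact hCμ
  have h8C : 8 ≤ C * (η * ε * μ) := by
    rw [div_le_iff₀ (by positivity)] at hC8
    exact hC8
  have hτC : 4 * n ^ α ≤ C * μ * τ := by
    rw [hτ]
    nlinarith
  have hτC' : 4 * n ^ α ≤ C * τ := by
    refine hτC.trans ?_
    have : C * μ ≤ C * 1 := mul_le_mul_of_nonneg_left hμ1 (by linarith)
    have h := mul_le_mul_of_nonneg_right this hτ0.le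
    linarith
  refine ⟨P, ?_, hPd, ?_, ?_⟩
  · -- the number of the sets
    have hsum : ∑ U ∈ P, (#U : ℝ) ≤ n := by
      have h1 : ∑ U ∈ P, #U = #(P.biUnion id) := by
        rw [card_biUnion]
        · rfl
        · intro A hA B hB hAB
          exact hPd A hA B hB hAB
      have h2 : #(P.biUnion id) ≤ Fintype.card V := card_le_univ _
      rw [← h1] at h2
      refine le_trans ?_ hVn
      exact_mod_cast h2
    have h1 : ∑ U ∈ P, s ≤ ∑ U ∈ P, (#U : ℝ) := sum_le_sum fun U hU => (hP U hU).2.1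
    rw [sum_const, nsmul_eq_mul, hs] at h1
    have h2 : (#P : ℝ) * μ ≤ 1 := by
      have h3 : (#P : ℝ) * μ * n ≤ 1 * n := by
        have : (#P : ℝ) * μ ≤ #P * σ := mul_le_mul_of_nonneg_left hμσ (by positivity)
        have := mul_le_mul_of_nonneg_right this hn0.le
        linarith
      exact le_of_mul_le_mul_right h3 hn0
    have h3 : (#P : ℝ) * μ ≤ C * μ := by linarith
    exact le_of_mul_le_mul_right h3 hμ0
  · refine le_trans ?_ hPs
    have h1 : 2 * τ * (#W : ℝ) ≤ η * cr G W W := by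
      calc 2 * τ * (#W : ℝ) ≤ 2 * τ * n := mul_le_mul_of_nonneg_left hWn (by positivity)
        _ = η * (ε * n ^ (1 + α)) := by rw [hτ, Real.rpow_add hn0, Real.rpow_one]; ring
        _ ≤ _ := mul_le_mul_of_nonneg_left he hη.le
    linarith
  · intro U hU
    obtain ⟨h1, h2, _, h4, h5⟩ := hP U hU
    have h2' : n ≤ C * #U := by
      have h6 : μ * n ≤ #U := by
        refine le_trans ?_ h2
        rw [hs]
        exact mul_le_mul_of_nonneg_right hμσ hn0.le
      calc n = 1 * n := (one_mul n).symm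
        _ ≤ C * μ * n := mul_le_mul_of_nonneg_right h1C hn0.le
        _ = C * (μ * n) := by ring
        _ ≤ _ := mul_le_mul_of_nonneg_left h6 (by linarith)
    refine ⟨h1, h2', ?_, ?_⟩
    · intro x hx
      refine ⟨?_, ?_⟩
      · have := mul_le_mul_of_nonneg_left (h4 x hx) (show (0 : ℝ) ≤ C by linarith)
        nlinarith
      · have h6 : #{y ∈ U | G.Adj x y} ≤ #{y ∈ W | G.Adj x y} :=
          card_le_card (filter_subset_filter _ h1)
        have h7 : (#{y ∈ U | G.Adj x y} : ℝ) ≤ #{y ∈ W | G.Adj x y} := by exact_mod_cast h6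
        exact h7.trans ((hdeg x (h1 hx)).trans (mul_le_mul_of_nonneg_right hCΔ hnα.le))
    · intro S T hST hU'
      rcases S.eq_empty_or_nonempty with hS | hS
      · rw [hS]
        simp only [card_empty, Nat.cast_zero]
        have : min (0 : ℝ) (#T : ℝ) = 0 := min_eq_left (by positivity)
        rw [this, mul_zero]
        positivity
      rcases T.eq_empty_or_nonempty with hT | hT
      · rw [hT]
        simp only [card_empty, Nat.cast_zero]
        have : min (#S : ℝ) (0 : ℝ) = 0 := min_eq_right (by positivity)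
        rw [this, mul_zero]
        positivity
      have h6 := h5 S T hS hT hST hU'
      have hSn : (#S : ℝ) ≤ n := by
        refine le_trans ?_ hVn
        exact_mod_cast card_le_univ S
      have h7 : μ * min (#S : ℝ) (#T : ℝ) ≤ min s (min (#S : ℝ) (#T : ℝ)) := by
        have h0 : (0 : ℝ) ≤ min (#S : ℝ) (#T : ℝ) := le_min (by positivity) (by positivity)
        refine le_min ?_ ?_
        · rw [hs]
          exact mul_le_mul hμσ ((min_le_left _ _).trans hSn) h0 hσ0.le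
        · nlinarith
      have h8 : τ / 4 * (μ * min (#S : ℝ) (#T : ℝ)) ≤ cr G S T :=
        (mul_le_mul_of_nonneg_left h7 (by positivity)).trans h6
      have h9 := mul_le_mul_of_nonneg_left h8 (show (0 : ℝ) ≤ C by linarith)
      refine le_trans ?_ h9
      have h0 : (0 : ℝ) ≤ min (#S : ℝ) (#T : ℝ) := le_min (by positivity) (by positivity)
      calc n ^ α * min (#S : ℝ) (#T : ℝ) = (4 * n ^ α) / 4 * min (#S : ℝ) (#T : ℝ) := by ring
        _ ≤ (C * μ * τ) / 4 * min (#S : ℝ) (#T : ℝ) := by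
          refine mul_le_mul_of_nonneg_right ?_ h0
          linarith
        _ = _ := by ring

end Pool.Agent.Q248.EX
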