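import Pool.Agent.Q248.EX.Gap
import Pool.Agent.Q248.EX.Equiv

set_option autoImplicit false

namespace Pool.Agent.Q248.EX

open Finset SimpleGraph

/-- Expander of order about `n` in the spectral sense. -/
structure SExp {W : Type} (H : SimpleGraph W) (n α C : ℝ) : Prop where
  order : n ≤ C * Nat.card W
  deg_ge : ∀ x, n ^ α ≤ C * (H.neighborSet x).ncard
  deg_le : ∀ x, ((H.neighborSet x).ncard : ℝ) ≤ C * n ^ α
  gap : ∀ f : W → ℝ, ∑ᶠ x, f x = 0 → n ^ α * ∑ᶠ x, f x ^ 2 ≤ C * energy H f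
  diam : ∀ x y, ∃ p : H.Walk x y, (p.length : ℝ) ≤ C

theorem energy_nonneg {W : Type} [Finite W] (H : SimpleGraph W) (f : W → ℝ) : 0 ≤ energy H f := by
  classical
  have := Fintype.ofFinite W
  rw [energy_eq]
  unfold sAdj
  refine sum_nonneg fun x _ => sum_nonneg fun y _ => ?_
  split_ifs <;> positivity

theorem Exp.sexp {W : Type} [Finite W] {H : SimpleGraph W} {n α C C' : ℝ} (h : Exp H n α C)
    (hn : 0 < n) (hC : 0 < C) (h1 : C ≤ C') (h2 : C ^ 3 ≤ C') : SExp H n α C' := by
  have hnα : 0 < n ^ α := by positivity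
  refine ⟨h.order.trans (mul_le_mul_of_nonneg_right h1 (by positivity)),
    fun x => (h.deg_ge x).trans (mul_le_mul_of_nonneg_right h1 (by positivity)),
    fun x => (h.deg_le x).trans (mul_le_mul_of_nonneg_right h1 hnα.le),
    fun f hf => (h.gap hn hC f hf).trans (mul_le_mul_of_nonneg_right h2 (energy_nonneg H f)),
    fun x y => ?_⟩
  obtain ⟨p, hp⟩ := h.diam x y
  exact ⟨p, hp.trans h1⟩

/-- the number of edges of such a graph -/
theorem SExp.edges {W : Type} [Finite W] {H : SimpleGraph W} {n α C : ℝ} (h : SExp H n α C)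
    (hn : 0 < n) (hC : 0 < C) : 1 / (2 * C ^ 2) * n ^ (1 + α) ≤ H.edgeSet.ncard := by
  classical
  have := Fintype.ofFinite W
  have h2 : (2 * H.edgeSet.ncard : ℕ) = ∑ x : W, (H.neighborSet x).ncard := by
    rw [← darts, card_filter, Fintype.sum_prod_type]
    refine sum_congr rfl fun x _ => ?_
    rw [← card_filter, ← Set.ncard_coe_finset]
    congr 1
    ext y
    simp
  have h3 : (Nat.card W : ℝ) * (n ^ α / C) ≤ 2 * H.edgeSet.ncard := by
    have h4 : (2 * (H.edgeSet.ncard : ℝ)) = ∑ x : W, ((H.neighborSet x).ncard : ℝ) := by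
      exact_mod_cast h2
    rw [h4]
    have h5 : ∑ x : W, (n ^ α / C) ≤ ∑ x : W, ((H.neighborSet x).ncard : ℝ) := by
      refine sum_le_sum fun x _ => ?_
      rw [div_le_iff₀ hC]
      have := h.deg_ge x
      linarith
    rw [sum_const, nsmul_eq_mul, card_univ, ← Nat.card_eq_fintype_card] at h5
    exact h5
  have h4 : n / C ≤ Nat.card W := by
    rw [div_le_iff₀ hC]
    have := h.order
    linarith
  have h5 : n / C * (n ^ α / C) ≤ 2 * H.edgeSet.ncard :=
    (mul_le_mul_of_nonneg_right h4 (by positivity)).trans h3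
  have h6 : 1 / (2 * C ^ 2) * n ^ (1 + α) = n / C * (n ^ α / C) / 2 := by
    rw [Real.rpow_add hn, Real.rpow_one]
    field_simp
  rw [h6]
  linarith

/-- graphs on `n` vertices from graphs on at most `n` vertices -/
theorem pad {A : Type} {F : SimpleGraph A} (hF : ∀ a, ∃ b, F.Adj a b) {W : Type} [Finite W]
    (H : SimpleGraph W) (hH : F.Free H) (n : ℕ) (hn : Nat.card W ≤ n) :
    ∃ G : SimpleGraph (Fin n), F.Free G ∧ G.edgeSet.ncard = H.edgeSet.ncard := by
  have := Fintype.ofFinite W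
  obtain ⟨e⟩ : Nonempty (W ↪ Fin n) := by
    rw [Function.Embedding.nonempty_iff_card_le, Fintype.card_fin, ← Nat.card_eq_fintype_card]
    exact hn
  refine ⟨H.map e, free_map hF e hH, ?_⟩
  rw [SimpleGraph.edgeSet_map]
  exact Set.ncard_image_of_injective _ e.sym2Map.injective

end Pool.Agent.Q248.EX
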